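import Pool.Agent.D0H99.EA.Desc
import Pool.Agent.R431.SG.Crit
import Pool.Agent.Y713.SE.Exd2

/-!
# Twists over elementary abelian coverings of the line over infinite fields
-/

set_option autoImplicit false
set_option linter.all false

open Polynomial IsDedekindDomain

namespace Pool.Agent.D0H99.EA

open Pool.Agent.Y713.Jac (ShaPrimaryTrivial ShaTateTrivial)
open Pool.Agent.R431.SG (twist_crit)

/-- removing the zeros from the generators -/
lemma gen_ne' {K L : Type} [Field K] [Field L] [Algebra K L] {ℓ r : ℕ} (hℓ : 0 < ℓ) {u : Fin r → L}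
    (hu : ∀ i, ∃ d : K, u i ^ ℓ = algebraMap K L d)
    (hgen : IntermediateField.adjoin K (Set.range u) = ⊤) :
    ∃ (u' : Fin r → L) (d : Fin r → K), (∀ i, u' i ^ ℓ = algebraMap K L (d i)) ∧ (∀ i, d i ≠ 0) ∧
      IntermediateField.adjoin K (Set.range u') = ⊤ := by
  classical
  choose d hd using hu
  refine ⟨fun i => if u i = 0 then 1 else u i, fun i => if u i = 0 then 1 else d i, fun i => ?_,
    fun i => ?_, ?_⟩
  · simp only
    split_ifs with h
    · rw [one_pow, map_one]
    · exact hd i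
  · simp only
    split_ifs with h
    · exact one_ne_zero
    · intro h0
      have h1 := hd i
      rw [h0, map_zero] at h1
      exact h (pow_eq_zero_iff hℓ.ne' |>.1 h1)
  · rw [eq_top_iff, ← hgen, IntermediateField.adjoin_le_iff]
    rintro _ ⟨i, rfl⟩
    by_cases h : u i = 0
    · rw [h]
      exact zero_mem _
    · refine IntermediateField.subset_adjoin _ _ ⟨i, ?_⟩
      simp only
      rw [if_neg h]

/-- generated by radicals implies finite and separable -/
lemma fin_sep {K L : Type} [Field K] [Field L] [Algebra K L] {ℓ r : ℕ} (hℓ : 0 < ℓ)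
    (hK : (ℓ : K) ≠ 0) {u : Fin r → L} {d : Fin r → K} (hu : ∀ i, u i ^ ℓ = algebraMap K L (d i))
    (hd : ∀ i, d i ≠ 0) (hgen : IntermediateField.adjoin K (Set.range u) = ⊤) :
    FiniteDimensional K L ∧ Algebra.IsSeparable K L := by
  have h0 : ∀ i, IsSeparable K (u i) := by
    intro i
    have h1 : (X ^ ℓ - C (d i) : K[X]).Separable := separable_X_pow_sub_C (d i) hK (hd i)
    have h2 : aeval (u i) (X ^ ℓ - C (d i) : K[X]) = 0 := by
      rw [map_sub, map_pow, aeval_X, aeval_C, hu, sub_self]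
    exact h1.of_dvd (minpoly.dvd K (u i) h2)
  constructor
  · have h1 : FiniteDimensional K (IntermediateField.adjoin K (Set.range u)) := by
      apply IntermediateField.finiteDimensional_adjoin
      rintro _ ⟨i, rfl⟩
      exact (h0 i).isIntegral
    rw [hgen] at h1
    exact Module.Finite.equiv (IntermediateField.topEquiv (F := K) (E := L)).toLinearEquiv
  · have h1 : Algebra.IsSeparable K (IntermediateField.adjoin K (Set.range u)) := by
      rw [IntermediateField.isSeparable_adjoin_iff_isSeparable]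
      rintro _ ⟨i, rfl⟩
      exact h0 i
    rw [hgen] at h1
    exact Algebra.IsSeparable.of_algHom K _
      (IntermediateField.topEquiv (F := K) (E := L)).symm.toAlgHom

theorem main_inf {O k : Type} [CommRing O] [IsDedekindDomain O] [Field k] [Algebra O k]
    [IsFractionRing O k] (hinf : Infinite (HeightOneSpectrum O)) {ℓ : ℕ} (hℓ : ℓ.Prime)
    (hk : (ℓ : k) ≠ 0) {ζ : k} (hζ : IsPrimitiveRoot ζ ℓ)
    {L : Type} [Field L] [Algebra (RatFunc k) L] [Algebra k[X] L]
    [IsScalarTower k[X] (RatFunc k) L] {r : ℕ} {u : Fin r → L}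
    (hu : ∀ i, ∃ d : RatFunc k, u i ^ ℓ = algebraMap (RatFunc k) L d)
    (hgen : IntermediateField.adjoin (RatFunc k) (Set.range u) = ⊤)
    {R : Type} [CommRing R] [IsDedekindDomain R] [Algebra R L] [IsFractionRing R L]
    [Algebra k[X] R] [IsScalarTower k[X] R L] [IsIntegralClosure R k[X] L]
    {G : (RatFunc k)[X]} (hs : G.Splits) (hsep : G.Separable) (hdeg : ¬ ℓ ∣ G.natDegree) (N : ℕ) :
    ∃ D : k[X], D.Monic ∧ Irreducible D ∧ N ≤ D.natDegree ∧
      Killed ℓ r ((C (algebraMap k[X] (RatFunc k) D) * G).map (algebraMap (RatFunc k) L)) R := by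
  classical
  obtain ⟨u', d, hu', hd, hgen'⟩ := gen_ne' hℓ.pos hu hgen
  have hinj : Function.Injective ((algebraMap k[X] (RatFunc k)).comp (C : k →+* k[X])) :=
    RingHom.injective _
  have hK : ((ℓ : ℕ) : RatFunc k) ≠ 0 := by
    have h1 := (map_ne_zero_iff _ hinj).2 hk
    rwa [map_natCast] at h1
  obtain ⟨hfd, hse⟩ := fin_sep hℓ.pos hK hu' hd hgen'
  haveI : Algebra.IsIntegral k[X] R := IsIntegralClosure.isIntegral_algebra k[X] L
  have hFt : ∀ t : Fin r → Fin ℓ, (C (dT d t) * G).Splits ∧ (C (dT d t) * G).Separable ∧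
      ¬ ℓ ∣ (C (dT d t) * G).natDegree := by
    intro t
    have h0 := dT_ne (ℓ := ℓ) hd t
    refine ⟨(Splits.C _).mul hs, ?_, ?_⟩
    · refine hsep.of_dvd ⟨C ((dT d t)⁻¹), ?_⟩
      rw [mul_comm (C (dT d t)), mul_assoc, ← C_mul, mul_inv_cancel₀ h0, C_1, mul_one]
    · rwa [natDegree_C_mul h0]
  choose T hT hcrit using fun t : Fin r → Fin ℓ =>
    twist_crit (RatFunc k) hℓ hk hζ (hFt t).1 (hFt t).2.1 (hFt t).2.2
  let U : Finset k[X] := Finset.univ.biUnion T
  have hTU : ∀ t, T t ⊆ U := fun t => Finset.subset_biUnion_of_mem T (Finset.mem_univ t)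
  have hU : ∀ π ∈ U, Irreducible π ∧ π.Monic := by
    intro π hπ
    obtain ⟨t, -, ht⟩ := Finset.mem_biUnion.1 hπ
    exact hT t π ht
  obtain ⟨D, hD1, hD2, hD3, hD4, hD5⟩ := Pool.Agent.Y713.SE.exists_D2 hinf hℓ hk U hU
    (N + 1 + U.sup natDegree)
  refine ⟨D, hD1, hD2, by omega, ?_⟩
  have hDU : ∀ π ∈ U, ¬ D ∣ π := by
    intro π hπ hd
    have h1 := natDegree_le_of_dvd hd (hU π hπ).1.ne_zero
    have h2 : π.natDegree ≤ U.sup natDegree := Finset.le_sup hπ
    omega
  have hall : ∀ t : Fin r → Fin ℓ, ShaPrimaryTrivial ℓ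
      (C (algebraMap k[X] (RatFunc k) D) * (C (dT d t) * G)) k[X] := by
    intro t
    refine hcrit t D hD2 (fun c ⟨a, ha⟩ => Pool.Agent.Y713.SE.const_stable hℓ hD2 hD4 ⟨a, ha⟩)
      (fun π hπ => hDU π (hTU t hπ)) ?_
    intro c a z hc hdvd π hπ
    have h1 : ∏ π ∈ U, π ^ (if π ∈ T t then a π else 0) = ∏ π ∈ T t, π ^ a π := by
      rw [← Finset.prod_subset (hTU t)]
      · exact Finset.prod_congr rfl fun π hπ => by rw [if_pos hπ]
      · intro π _ hn
        rw [if_neg hn, pow_zero]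
    have h2 := hD5 c (fun π => if π ∈ T t then a π else 0) z hc (by rwa [h1]) π (hTU t hπ)
    simpa [hπ] using h2
  have hD0 : algebraMap k[X] (RatFunc k) D ≠ 0 := by
    rw [Ne, map_eq_zero_iff _ (IsFractionRing.injective k[X] (RatFunc k))]
    exact hD2.ne_zero
  set E : RatFunc k := algebraMap k[X] (RatFunc k) D with hE
  have hF1 : (C E * G).Splits := (Splits.C _).mul hs
  have hF2 : (C E * G).Separable := by
    refine hsep.of_dvd ⟨C (E⁻¹), ?_⟩
    rw [mul_comm (C E), mul_assoc, ← C_mul, mul_inv_cancel₀ hD0, C_1, mul_one]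
  have hF3 : ¬ ℓ ∣ (C E * G).natDegree := by rwa [natDegree_C_mul hD0]
  have hζ' : IsPrimitiveRoot (algebraMap k[X] (RatFunc k) (C ζ)) ℓ :=
    hζ.map_of_injective (f := (algebraMap k[X] (RatFunc k)).comp C) hinj
  have key := desc (R := k[X]) (R' := R) hℓ hK hζ' hu' hd hgen'
    hF1 hF2 hF3 (m := 0) (fun t => by
      have h5 := killed_zero (hall t)
      have h6 : C E * (C (dT d t) * G) = C (dT d t) * (C E * G) := by ring
      rwa [h6] at h5)
  rwa [zero_add, Fintype.card_fin] at key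

end Pool.Agent.D0H99.EA
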