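import Pool.Agent.D0H99.EA.Desc
import Pool.Agent.R431.SG.Crit
import Pool.Agent.Y713.SE.Exd2

/-!
# Scaling by an `ℓ`-th power, and the criterion with exponents
-/

set_option autoImplicit false
set_option linter.all false

open Polynomial IsDedekindDomain

namespace Pool.Agent.D0H99.EA

open Pool.Agent.Y713.SE (CR)
open Pool.Agent.Y713.Jac (J mapJ Gal Cochain IsCocycle IsCoboundary IsTrivialOver IsLocallyTrivial
  ShaPrimaryTrivial ShaTateTrivial)
open CommRing (Pic)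

section scale
variable {ℓ : ℕ} {K : Type} [Field K] {F : K[X]} {z : K}

lemma ok_sc (z : K) (F : K[X]) (E : Type) [Field E] [Algebra K E] :
    Ok ℓ ((C (z ^ ℓ) * F).map (algebraMap K E)) (F.map (algebraMap K E)) (RingHom.id E)
      (algebraMap K E z) := by
  unfold Ok
  rw [Polynomial.map_id, Polynomial.map_mul, map_C, map_pow (algebraMap K E)]

lemma ok_sc' {z : K} (hz : z ≠ 0) (F : K[X]) (E : Type) [Field E] [Algebra K E] :
    Ok ℓ (F.map (algebraMap K E)) ((C (z ^ ℓ) * F).map (algebraMap K E)) (RingHom.id E)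
      (algebraMap K E z)⁻¹ := by
  unfold Ok
  rw [Polynomial.map_id, Polynomial.map_mul, map_C, ← mul_assoc, ← C_mul, inv_pow, map_pow,
    inv_mul_cancel₀, C_1, one_mul]
  exact pow_ne_zero _ ((_root_.map_ne_zero _).2 hz)

/-- the isomorphism -/
noncomputable def th (z : K) (F : K[X]) (E : Type) [Field E] [Algebra K E] :
    J ℓ (C (z ^ ℓ) * F) E →* J ℓ F E := pm (RingHom.id E) (algebraMap K E z) (ok_sc z F E)

lemma th_nat (z : K) (F : K[X]) {E E' : Type} [Field E] [Algebra K E] [Field E'] [Algebra K E']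
    (φ : E →ₐ[K] E') (x : J ℓ (C (z ^ ℓ) * F) E) :
    th z F E' (mapJ ℓ _ φ x) = mapJ ℓ F φ (th z F E x) := by
  unfold th
  rw [mapJ_eq, mapJ_eq, pm_pm, pm_pm]
  refine pm_congr _ _ (fun x => rfl) ?_ x
  rw [RingHom.id_apply, one_mul, mul_one]
  exact (φ.commutes z).symm

lemma th_inj {z : K} (hz : z ≠ 0) (F : K[X]) (E : Type) [Field E] [Algebra K E] :
    Function.Bijective (th (ℓ := ℓ) z F E) := by
  have h0 : algebraMap K E z ≠ 0 := (_root_.map_ne_zero _).2 hz
  refine Function.bijective_iff_has_inverse.2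
    ⟨pm (RingHom.id E) (algebraMap K E z)⁻¹ (ok_sc' hz F E), fun x => ?_, fun x => ?_⟩
  · unfold th
    rw [pm_pm]
    refine pm_id _ (fun x => rfl) ?_ x
    rw [RingHom.id_apply, mul_inv_cancel₀ h0]
  · unfold th
    rw [pm_pm]
    refine pm_id _ (fun x => rfl) ?_ x
    rw [RingHom.id_apply, inv_mul_cancel₀ h0]

/-- scaling by an `ℓ`-th power -/
theorem prim_scale {z : K} (hz : z ≠ 0) {R : Type} [CommRing R] [IsDedekindDomain R]
    [Algebra R K] [IsFractionRing R K] (h : ShaPrimaryTrivial ℓ F R) :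
    ShaPrimaryTrivial ℓ (C (z ^ ℓ) * F) R := by
  intro f m h1 h2 h3
  have k1 : IsCocycle ℓ F (fun σ => th z F (SeparableClosure K) (f σ)) := by
    refine ⟨h1.1.comp _, fun σ τ => ?_⟩
    change th z F _ (f (σ * τ)) = _
    rw [h1.2, map_mul, th_nat]
  have k2 : IsLocallyTrivial ℓ F R (fun σ => th z F (SeparableClosure K) (f σ)) := by
    intro v
    obtain ⟨ι, P, hP⟩ := h2 v
    refine ⟨ι, th z F _ P, fun τ σ hτ => ?_⟩
    rw [← th_nat, hP τ σ hτ, _root_.map_div, th_nat]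
  have k3 : IsCoboundary ℓ F (fun σ => (th z F (SeparableClosure K) (f σ)) ^ ℓ ^ m) := by
    obtain ⟨P, hP⟩ := h3
    refine ⟨th z F _ P, fun σ => ?_⟩
    change (th z F (SeparableClosure K) (f σ)) ^ ℓ ^ m = _
    rw [← map_pow, ← th_nat, ← _root_.map_div, ← hP σ]
  obtain ⟨P, hP⟩ := h _ m k1 k2 k3
  obtain ⟨Q, rfl⟩ := (th_inj hz F (SeparableClosure K)).2 P
  refine ⟨Q, fun σ => ?_⟩
  apply (th_inj hz F (SeparableClosure K)).1
  rw [_root_.map_div, th_nat]
  exact hP σ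

end scale

section crit
open Pool.Agent.Y713 Pool.Agent.Y713.SE
open Pool.Agent.R431.SG (stab2)

variable {k : Type} [Field k] (K : Type) [Field K] [Algebra k[X] K] [IsFractionRing k[X] K]

/-- the criterion with exponents -/
theorem crit_exp {ℓ : ℕ} (hℓ : ℓ.Prime)
    (hk : (ℓ : k) ≠ 0) {ζ : k} (hζ : IsPrimitiveRoot ζ ℓ) {F : K[X]} (hs : F.Splits)
    (hsep : F.Separable) (hn : ¬ ℓ ∣ F.natDegree) :
    ∃ T0 : Finset k[X], (∀ π ∈ T0, Irreducible π ∧ π.Monic) ∧
      ∀ T : Finset k[X], T0 ⊆ T → (∀ π ∈ T, Irreducible π ∧ π.Monic) →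
      ∀ D : k[X], Irreducible D →
        (∀ c : k, (∃ a : k[X], D ∣ C c - a ^ ℓ) → ∃ b : k, c = b ^ ℓ) →
        (∀ π ∈ T, ¬ D ∣ π) →
        (∀ (c : k) (a : k[X] → ℕ) (z : k[X]), c ≠ 0 → D ∣ C c * ∏ π ∈ T, π ^ a π - z ^ ℓ →
          ∀ π ∈ T, ℓ ∣ a π) →
        ∀ (c : k) (a : ℕ) (b : k[X] → ℕ), c ≠ 0 → ¬ ℓ ∣ a →
        Jac.ShaPrimaryTrivial ℓ
          (C (algebraMap k[X] K (C c * D ^ a * ∏ π ∈ T, π ^ b π)) * F) k[X] := by
  classical
  have hnd : F.roots.Nodup := nodup_roots hsep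
  have hF0 : F ≠ 0 := hsep.ne_zero
  set n := F.natDegree with hndef
  have hcard : F.roots.toFinset.card = n := by
    rw [Multiset.toFinset_card_of_nodup hnd, ← hs.natDegree_eq_card_roots]
  let eqv := F.roots.toFinset.equivFinOfCardEq hcard
  let e : Fin n → K := fun i => (eqv.symm i : K)
  have he : Function.Injective e := Subtype.val_injective.comp eqv.symm.injective
  have hlc : F.leadingCoeff ≠ 0 := leadingCoeff_ne_zero.2 hF0
  have hfac : F = C F.leadingCoeff * ∏ i : Fin n, (X - C (e i)) := by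
    conv_lhs => rw [hs.eq_prod_roots]
    congr 1
    have h3 : (F.roots.map fun a => X - C a).prod = ∏ a ∈ F.roots.toFinset, (X - C a) := by
      rw [Finset.prod_multiset_map_count]
      refine Finset.prod_congr rfl fun a ha => ?_
      rw [Multiset.count_eq_one_of_mem hnd (Multiset.mem_toFinset.1 ha), pow_one]
    rw [h3, ← Finset.prod_coe_sort]
    exact (Equiv.prod_comp eqv.symm (fun a : F.roots.toFinset => (X - C (a : K)))).symm
  -- the bad places
  let Bad : Set (HeightOneSpectrum k[X]) := {v | v.valuation K F.leadingCoeff ≠ 1} ∪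
    ⋃ i : Fin n, ⋃ j : Fin n, if i = j then ∅ else {v | v.valuation K (e i - e j) ≠ 1}
  have hBad : Bad.Finite := by
    refine (finite_bad hlc).union (Set.finite_iUnion fun i => Set.finite_iUnion fun j => ?_)
    split_ifs with hij
    · exact Set.finite_empty
    · exact finite_bad (sub_ne_zero.2 fun h => hij (he h))
  have hnBad : ∀ v, v ∉ Bad → v.valuation K F.leadingCoeff = 1 ∧
      ∀ i j, i ≠ j → v.valuation K (e i - e j) = 1 := by
    intro v hv
    rw [Set.mem_union, not_or] at hv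
    refine ⟨not_not.1 hv.1, fun i j hij => ?_⟩
    by_contra hne
    apply hv.2
    rw [Set.mem_iUnion]
    refine ⟨i, Set.mem_iUnion.2 ⟨j, ?_⟩⟩
    rw [if_neg hij]
    exact hne
  let T0 : Finset k[X] := hBad.toFinset.image gen
  have hT0 : ∀ π ∈ T0, Irreducible π ∧ π.Monic := by
    intro π hπ
    obtain ⟨v, -, rfl⟩ := Finset.mem_image.1 hπ
    exact ⟨gen_irr v, gen_monic v⟩
  refine ⟨T0, hT0, ?_⟩
  intro T hTT hT D hD2 hD4 hDT hD5 c a b hc ha
  let Bad' : Set (HeightOneSpectrum k[X]) := {v | ∃ π ∈ T, π ∈ v.asIdeal}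
  have hTBad : ∀ v, v ∉ Bad' → v ∉ Bad := by
    intro v hv hb
    exact hv ⟨gen v, hTT (Finset.mem_image.2 ⟨v, hBad.mem_toFinset.2 hb, rfl⟩), gen_mem v⟩
  have hTBad' : ∀ v, (∀ π ∈ T, π ∉ v.asIdeal) → v ∉ Bad' := by
    rintro v hv ⟨π, hπ, h⟩
    exact hv π hπ h
  have hv0 : hp D hD2 ∉ Bad' := by
    rintro ⟨π, hπ, hmem⟩
    exact hDT π hπ ((mem_hp hD2 π).1 hmem)
  have hprod : ∀ v, v ∉ Bad' → v.valuation K (algebraMap k[X] K (∏ π ∈ T, π ^ b π)) = 1 := by
    intro v hv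
    rw [val_eq_one_iff]
    intro hmem
    haveI := v.isPrime
    obtain ⟨π, hπ, h2⟩ := Ideal.IsPrime.prod_mem_iff.1 hmem
    exact hv ⟨π, hπ, v.isPrime.mem_of_pow_mem _ h2⟩
  have hvδ : ∀ v, v ∉ Bad' → v.valuation K (algebraMap k[X] K (C c * D ^ a * ∏ π ∈ T, π ^ b π)) =
      (v.valuation K (algebraMap k[X] K D)) ^ a := by
    intro v hv
    have e1 : algebraMap k[X] K (C c * D ^ a * ∏ π ∈ T, π ^ b π) = algebraMap k[X] K (C c) *
        (algebraMap k[X] K D) ^ a * algebraMap k[X] K (∏ π ∈ T, π ^ b π) := by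
      rw [map_mul, map_mul, map_pow]
    rw [e1, map_mul, hprod v hv, mul_one, map_mul, val_C hc, one_mul, map_pow]
  have hδ0 : algebraMap k[X] K (C c * D ^ a * ∏ π ∈ T, π ^ b π) ≠ 0 := by
    rw [Ne, map_eq_zero_iff _ (IsFractionRing.injective k[X] K)]
    refine mul_ne_zero (mul_ne_zero (C_ne_zero.2 hc) (pow_ne_zero _ hD2.ne_zero)) ?_
    exact Finset.prod_ne_zero_iff.2 fun π hπ => pow_ne_zero _ (hT π hπ).1.ne_zero
  have hδ : algebraMap k[X] K (C c * D ^ a * ∏ π ∈ T, π ^ b π) * F.leadingCoeff ≠ 0 :=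
    mul_ne_zero hδ0 hlc
  let DD := tDat K hℓ hk hζ hδ he hn
  have hf : DD.f = C (algebraMap k[X] K (C c * D ^ a * ∏ π ∈ T, π ^ b π)) * F := by
    unfold Dat.f
    show C (algebraMap k[X] K (C c * D ^ a * ∏ π ∈ T, π ^ b π) * F.leadingCoeff) *
      ∏ i : Fin n, (X - C (e i)) = _
    conv_rhs => rw [hfac]
    rw [C_mul, mul_assoc]
  rw [← hf]
  obtain ⟨p, hexp⟩ := ExpChar.exists K
  haveI := hexp
  haveI : ExpChar (SeparableClosure K) p :=
    expChar_of_injective_algebraMap (algebraMap K (SeparableClosure K)).injective p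
  haveI : ∀ v : HeightOneSpectrum k[X], ExpChar (SeparableClosure (v.adicCompletion K)) p := fun v =>
    expChar_of_injective_algebraMap
      (algebraMap K (SeparableClosure (v.adicCompletion K))).injective p
  have hvD : ∀ v, v ≠ hp D hD2 → v.valuation K (algebraMap k[X] K D) = 1 := by
    intro v hv
    rw [val_eq_one_iff]
    exact fun hmem => hv (eq_hp hD2 hmem)
  apply DD.sha_primary (R := k[X])
  refine DD.crit1 (p := p) (fun v => SeparableClosure (v.adicCompletion K)) ?_ Bad' (hp D hD2)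
    (hnBad _ (hTBad _ hv0)).2 ?_ ?_ ?_
  · intro v
    have h3 : ((ℓ : ℕ) : K) = algebraMap k[X] K (C (ℓ : k)) := by
      rw [C_eq_natCast, map_natCast]
    rw [h3]
    exact val_C hk
  · show ¬ Pw ℓ ((hp D hD2).valuation K
      (algebraMap k[X] K (C c * D ^ a * ∏ π ∈ T, π ^ b π) * F.leadingCoeff))
    rw [map_mul, (hnBad _ (hTBad _ hv0)).1, mul_one, hvδ _ hv0, val_hp_self]
    exact fun h => ha (pw_exp_pow hℓ h)
  · intro v hv hvne
    refine ⟨(hnBad v (hTBad v hv)).2, ?_⟩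
    show v.valuation K (algebraMap k[X] K (C c * D ^ a * ∏ π ∈ T, π ^ b π) * F.leadingCoeff) = 1
    rw [map_mul, (hnBad v (hTBad v hv)).1, mul_one, hvδ v hv, hvD v hvne, one_pow]
  · intro d hd hpw hx
    exact stab2 hℓ hD2 hD4 T hT hDT hD5 hd (fun v hv hvne => hpw v (hTBad' v hv) hvne) hx

end crit

end Pool.Agent.D0H99.EA
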