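import Pool.Agent.D0H99.EA.Tr

/-!
# Local triviality at the places of `L` and the embeddings
-/

set_option autoImplicit false
set_option linter.all false

open Polynomial

namespace Pool.Agent.D0H99.EA

open Pool.Agent.Y713.SE (CR)
open Pool.Agent.Y713.Jac (J mapJ Gal Cochain IsCocycle IsCoboundary IsTrivialOver)
open CommRing (Pic)

lemma aut_of_two {k C : Type} [Field k] [Field C] (β₁ β₂ : SeparableClosure k →+* C)
    (h : ∀ x : k, β₁ (algebraMap k _ x) = β₂ (algebraMap k _ x)) :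
    ∃ τ : Gal k, ∀ x, β₂ x = β₁ (τ x) := by
  let i1 : Algebra (SeparableClosure k) C := β₁.toAlgebra
  let i2 : Algebra k C := (β₁.comp (algebraMap k (SeparableClosure k))).toAlgebra
  have i3 : IsScalarTower k (SeparableClosure k) C := IsScalarTower.of_algebraMap_eq fun _ => rfl
  let β : SeparableClosure k →ₐ[k] C :=
    { β₂ with commutes' := fun x => (h x).symm }
  refine ⟨Normal.algHomEquivAut k C (SeparableClosure k) β, fun x => ?_⟩
  have h1 := (Normal.algHomEquivAut k C (SeparableClosure k)).symm_apply_apply β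
  have h2 := DFunLike.congr_fun h1 x
  exact h2.symm

section all
variable {ℓ : ℕ} {K : Type} [Field K] {F : K[X]}

/-- triviality over `E` for one embedding implies it for every embedding -/
lemma triv_all {E : Type} [Field E] [Algebra K E] {f : Cochain ℓ F} (hf : IsCocycle ℓ F f)
    (h : IsTrivialOver ℓ F E f) (ι : SeparableClosure K →ₐ[K] SeparableClosure E) :
    ∃ P : J ℓ F (SeparableClosure E), ∀ (τ : Gal E) (σ : Gal K),
      (∀ x : SeparableClosure K, τ (ι x) = ι (σ x)) →
      mapJ ℓ F ι (f σ) = mapJ ℓ F (τ.toAlgHom.restrictScalars K) P / P := by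
  obtain ⟨ι0, P0, h0⟩ := h
  obtain ⟨g, hg⟩ := aut_of_two (ι0 : SeparableClosure K →+* SeparableClosure E)
    (ι : SeparableClosure K →+* SeparableClosure E) (fun x =>
      (ι0.commutes x).trans (ι.commutes x).symm)
  have hg' : ι0.comp g.toAlgHom = ι := AlgHom.ext fun x => (hg x).symm
  refine ⟨P0 * mapJ ℓ F ι0 (f g), fun τ σ hτ => ?_⟩
  have h1 : ∀ x, τ (ι0 x) = ι0 ((g * σ * g⁻¹) x) := by
    intro x
    have h2 := hτ (g⁻¹ x)
    have h3 : ι (g⁻¹ x) = ι0 x := by
      refine (hg (g⁻¹ x)).trans ?_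
      exact congrArg ι0 (AlgEquiv.apply_symm_apply g x)
    rw [h3] at h2
    rw [h2]
    exact hg _
  have h4 := h0 τ (g * σ * g⁻¹) h1
  have e1 : f (g * σ * g⁻¹) * mapJ ℓ F (g * σ * g⁻¹).toAlgHom (f g) =
      f g * mapJ ℓ F g.toAlgHom (f σ) := by
    rw [← hf.2, ← hf.2]
    congr 1
    group
  have e2 := congrArg (mapJ ℓ F ι0) e1
  rw [map_mul, map_mul, mapJ_mapJ, mapJ_mapJ, hg', h4] at e2
  have e3 : ι0.comp (g * σ * g⁻¹).toAlgHom = (τ.toAlgHom.restrictScalars K).comp ι0 :=
    AlgHom.ext fun x => (h1 x).symm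
  rw [e3, ← mapJ_mapJ] at e2
  rw [map_mul]
  generalize mapJ ℓ F ι (f σ) = x1 at *
  generalize mapJ ℓ F (τ.toAlgHom.restrictScalars K) P0 = x2 at *
  generalize mapJ ℓ F (τ.toAlgHom.restrictScalars K) (mapJ ℓ F ι0 (f g)) = x3 at *
  generalize mapJ ℓ F ι0 (f g) = x4 at *
  rw [eq_div_iff_mul_eq', mul_left_comm, mul_comm x1 x4, ← e2, ← mul_assoc, mul_div_cancel]

end all

section bridge
variable {K L : Type} [Field K] [Field L] [Algebra K L]
  (e : SeparableClosure L ≃+* SeparableClosure K)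
  (he : ∀ x : K, e (algebraMap L (SeparableClosure L) (algebraMap K L x)) =
    algebraMap K (SeparableClosure K) x)
  {ℓ : ℕ} {F : K[X]} {dd : K} {s : L} (hℓ : 0 < ℓ) (hs : s ^ ℓ = algebraMap K L dd) (hdd : dd ≠ 0)

lemma bridge {E : Type} [Field E] [Algebra K E] {Fv : Type} [Field Fv] [Algebra L Fv]
    {f : Cochain ℓ (F.map (algebraMap K L))} (hc : IsCocycle ℓ _ f)
    (hf : IsTrivialOver ℓ (F.map (algebraMap K L)) Fv f)
    (j : SeparableClosure K →ₐ[K] SeparableClosure E)
    (β : Fv →+* SeparableClosure E)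
    (hβ : ∀ x : L, β (algebraMap L Fv x) = j (e (algebraMap L _ x)))
    (hfix : ∀ τ : Gal E, (∀ x : L, τ (j (e (algebraMap L _ x))) = j (e (algebraMap L _ x))) →
      ∀ y, τ (β y) = β y) :
    ∃ P : J ℓ (C dd * F) (SeparableClosure E), ∀ (τ : Gal E) (h : Gal K),
      Fx e h → (τ.toAlgHom.restrictScalars K).comp j = j.comp h.toAlgHom →
        mapJ ℓ (C dd * F) j (tr e he ℓ F hℓ hs hdd f h) = bN ℓ (C dd * F) E τ P / P := by
  let i1 : Algebra Fv (SeparableClosure E) := β.toAlgebra
  let β' : SeparableClosure Fv →ₐ[Fv] SeparableClosure E := IsSepClosed.lift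
  have hβ' : ∀ y : Fv, β' (algebraMap Fv _ y) = β y := fun y => β'.commutes y
  let ι₀ : SeparableClosure L →ₐ[L] SeparableClosure Fv := IsSepClosed.lift
  obtain ⟨σ₀, hσ₀⟩ := aut_of_two
    ((β' : SeparableClosure Fv →+* SeparableClosure E).comp
      (ι₀ : SeparableClosure L →+* SeparableClosure Fv))
    ((j : SeparableClosure K →+* SeparableClosure E).comp
      (e : SeparableClosure L →+* SeparableClosure K)) (by
      intro x
      change β' (ι₀ (algebraMap L _ x)) = j (e (algebraMap L _ x))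
      rw [ι₀.commutes, ← hβ, ← hβ']
      rfl)
  have hσ1 : ∀ x, j (e x) = β' (ι₀ (σ₀ x)) := hσ₀
  let ι : SeparableClosure L →ₐ[L] SeparableClosure Fv := ι₀.comp σ₀.toAlgHom
  have hι : ∀ x, j (e x) = β' (ι x) := hσ1
  obtain ⟨P', hP'⟩ := triv_all hc hf ι
  -- the transport of the trivialisation
  have hcE : (j (e (algebraMap L (SeparableClosure L) s)))⁻¹ ^ ℓ *
      algebraMap K (SeparableClosure E) dd = 1 := by
    rw [inv_pow, ← map_pow, ← map_pow, ← map_pow, hs, he, j.commutes, inv_mul_cancel₀]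
    exact (_root_.map_ne_zero _).2 hdd
  have hφ1 : ∀ x : K, (β' : SeparableClosure Fv →+* SeparableClosure E)
      (algebraMap L (SeparableClosure Fv) (algebraMap K L x)) =
      algebraMap K (SeparableClosure E) x := by
    intro x
    have h1 := hι (algebraMap L (SeparableClosure L) (algebraMap K L x))
    rw [he, j.commutes, ι.commutes] at h1
    exact h1.symm
  have S1 := ok_any (ℓ := ℓ) F hφ1 hcE
  refine ⟨pm (β' : SeparableClosure Fv →+* SeparableClosure E)
    (j (e (algebraMap L (SeparableClosure L) s)))⁻¹ S1 P', fun τ h hh hτ => ?_⟩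
  have hτ1 : ∀ x, τ (j x) = j (h x) := fun x => DFunLike.congr_fun hτ x
  have hfx : ∀ y, τ (β y) = β y := by
    apply hfix
    intro x
    rw [hτ1, hh x]
  obtain ⟨τ', hτ'⟩ := aut_of_two (β' : SeparableClosure Fv →+* SeparableClosure E)
    (((τ : SeparableClosure E ≃+* SeparableClosure E) : SeparableClosure E →+*
      SeparableClosure E).comp (β' : SeparableClosure Fv →+* SeparableClosure E)) (by
      intro y
      change β' (algebraMap Fv _ y) = τ (β' (algebraMap Fv _ y))
      rw [hβ', hfx])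
  have hτ2 : ∀ x, τ (β' x) = β' (τ' x) := hτ'
  have hcomp : ∀ x, τ' (ι x) = ι (cF e h x) := by
    intro x
    apply (β' : SeparableClosure Fv →+* SeparableClosure E).injective
    change β' (τ' (ι x)) = β' (ι (cF e h x))
    rw [← hτ2, ← hι, ← hι, hτ1, e_cF e hh]
  have h1 := hP' τ' (cF e h) hcomp
  have h2 : mapJ ℓ (C dd * F) j (tr e he ℓ F hℓ hs hdd f h) =
      pm (β' : SeparableClosure Fv →+* SeparableClosure E)
        (j (e (algebraMap L (SeparableClosure L) s)))⁻¹ S1
        (mapJ ℓ (F.map (algebraMap K L)) ι (f (cF e h))) := by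
    unfold tr
    rw [mapJ_eq, mapJ_eq, pm_pm, pm_pm]
    refine pm_congr _ _ (fun x => ?_) ?_ _
    · exact hι x
    · rw [mul_one, map_one, one_mul]
      exact map_inv₀ j _
  rw [h2, h1, _root_.map_div]
  congr 1
  change _ = mapJ ℓ (C dd * F) (τ.toAlgHom.restrictScalars K) _
  rw [mapJ_eq, mapJ_eq, pm_pm, pm_pm]
  refine pm_congr _ _ (fun x => ?_) ?_ _
  · exact (hτ2 x).symm
  · rw [mul_one, map_one, one_mul]
    change _ = τ (_)⁻¹
    rw [map_inv₀, hτ1, hh s]

end bridge

end Pool.Agent.D0H99.EA
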