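import Mathlib

/-!
# Corestriction of cocycles (multiplicative notation)

A multiplicative version of `Pool.Agent.TH841.NF.Cor`, without the character.
-/

set_option autoImplicit false

namespace Pool.Agent.D0H99.EA

open Finset

variable {G M : Type} [Group G] [CommGroup M] {H : Subgroup G}

section cor

variable [Fintype (G ⧸ H)]

/-- the corestriction of `f` from `H` to `G` -/
noncomputable def cor (s : G ⧸ H → G) (a : G →* Monoid.End M) (f : G → M)
    (g : G) : M :=
  ∏ q : G ⧸ H, a (s (g • q)) (f ((s (g • q))⁻¹ * g * s q))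

variable {s : G ⧸ H → G} (hs : ∀ q, (s q : G ⧸ H) = q)
variable (a : G →* Monoid.End M)

include hs in
omit [Fintype (G ⧸ H)] in
lemma mem_H (g : G) (q : G ⧸ H) : (s (g • q))⁻¹ * g * s q ∈ H := by
  rw [mul_assoc, ← QuotientGroup.eq, hs]
  conv_lhs => rw [← hs q]
  rfl

/-- values of the action -/
lemma a_mul (g g' : G) (x : M) : a (g * g') x = a g (a g' x) := by
  rw [map_mul]
  rfl

lemma a_one (x : M) : a 1 x = x := by
  rw [map_one]
  rfl

include hs in
/-- the corestriction of a cocycle is a cocycle -/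
lemma cor_coc {f : G → M} (hf : ∀ x ∈ H, ∀ y ∈ H, f (x * y) = f x * a x (f y)) (g g' : G) :
    cor s a f (g * g') = cor s a f g * a g (cor s a f g') := by
  have e1 : cor s a f g = ∏ q : G ⧸ H, a (s (g • g' • q))
      (f ((s (g • g' • q))⁻¹ * g * s (g' • q))) := by
    unfold cor
    exact (Equiv.prod_comp (MulAction.toPerm g' : Equiv.Perm (G ⧸ H)) (fun q : G ⧸ H =>
      a (s (g • q)) (f ((s (g • q))⁻¹ * g * s q)))).symm
  rw [e1]
  unfold cor
  rw [map_prod, ← prod_mul_distrib]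
  refine prod_congr rfl fun q _ => ?_
  have h1 := mem_H hs g (g' • q)
  have h2 := mem_H hs g' q
  have e0 : (g * g') • q = g • g' • q := mul_smul g g' q
  rw [e0]
  have e2 : (s (g • g' • q))⁻¹ * (g * g') * s q =
      ((s (g • g' • q))⁻¹ * g * s (g' • q)) * ((s (g' • q))⁻¹ * g' * s q) := by
    group
  rw [e2, hf _ h1 _ h2, map_mul]
  congr 1
  rw [← a_mul, ← a_mul]
  congr 2
  group

include hs in
/-- the corestriction of a coboundary is a coboundary -/
lemma cor_cob {f : G → M} (P : M) (hf : ∀ x ∈ H, f x = a x P / P) (g : G) :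
    cor s a f g = a g (∏ q : G ⧸ H, a (s q) P) / ∏ q : G ⧸ H, a (s q) P := by
  have e1 : ∏ q : G ⧸ H, a (s q) P = ∏ q : G ⧸ H, a (s (g • q)) P :=
    (Equiv.prod_comp (MulAction.toPerm g : Equiv.Perm (G ⧸ H)) (fun q : G ⧸ H =>
      a (s q) P)).symm
  conv_rhs => rw [div_eq_mul_inv]; arg 2; rw [e1]
  rw [← div_eq_mul_inv, map_prod, ← prod_div_distrib]
  unfold cor
  refine prod_congr rfl fun q _ => ?_
  rw [hf _ (mem_H hs g q), map_div, ← a_mul]
  congr 1
  rw [← a_mul]
  congr 2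
  group

/-- vanishing -/
lemma cor_one_of (f : G → M) (g : G) (h : ∀ q : G ⧸ H, f ((s (g • q))⁻¹ * g * s q) = 1) :
    cor s a f g = 1 := by
  unfold cor
  refine prod_eq_one fun q _ => ?_
  rw [h, map_one]

lemma cor_pow (f : G → M) (n : ℕ) (g : G) :
    cor s a (fun x => f x ^ n) g = cor s a f g ^ n := by
  unfold cor
  rw [← prod_pow]
  refine prod_congr rfl fun q _ => ?_
  rw [map_pow]

end cor

/-! ### Several characters -/

section sum

variable [Fintype (G ⧸ H)] [hN : H.Normal]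
variable {s : G ⧸ H → G} (hs : ∀ q, (s q : G ⧸ H) = q) (hs1 : s ((1 : G) : G ⧸ H) = 1)

include hs hs1 in
/-- the product over all the characters of `G / H` of the restriction of the corestriction -/
lemma prod_cor {T : Type} [Fintype T] (a : T → (G →* Monoid.End M))
    (hn0 : ∀ g, g ∉ H → ∀ x, ∏ t, a t g x = 1) (f : G → M) (h : G)
    (hh : h ∈ H) : ∏ t, cor s (a t) f h = f h ^ Fintype.card T := by
  have hq : ∀ q : G ⧸ H, h • q = q := by
    intro q
    induction q using QuotientGroup.induction_on with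
    | H g =>
      change ((h * g : G) : G ⧸ H) = g
      rw [eq_comm, QuotientGroup.eq, ← mul_assoc]
      have := hN.conj_mem h hh g⁻¹
      rwa [inv_inv] at this
  unfold cor
  rw [prod_comm, prod_eq_single ((1 : G) : G ⧸ H)]
  · rw [hq, hs1]
    simp only [a_one, inv_one, one_mul, mul_one, prod_const, Finset.card_univ]
  · intro q _ hq1
    rw [hq, hn0 (s q)]
    intro hmem
    apply hq1
    rw [← hs q, eq_comm, QuotientGroup.eq]
    simpa using hmem
  · intro h0
    exact absurd (mem_univ _) h0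

end sum

/-! ### Local triviality -/

section loc

/-- the data: `J` is a set of embeddings, `L` a local Galois group -/
structure Loc (G M J L N : Type) [Group G] [CommGroup M] [Group L] [CommGroup N] where
  /-- the action of `G` -/
  a : G →* Monoid.End M
  /-- the action of `L` -/
  b : L →* Monoid.End N
  /-- composition -/
  lc : L → J → J
  /-- composition -/
  rc : J → G → J
  /-- the map on points -/
  st : J → M →* N
  lc_mul : ∀ τ τ' j, lc (τ * τ') j = lc τ (lc τ' j)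
  lc_one : ∀ j, lc 1 j = j
  rc_mul : ∀ j g g', rc j (g * g') = rc (rc j g) g'
  rc_one : ∀ j, rc j 1 = j
  comm : ∀ τ j g, lc τ (rc j g) = rc (lc τ j) g
  st_l : ∀ τ j x, st (lc τ j) x = b τ (st j x)
  st_r : ∀ j g x, st (rc j g) x = st j (a g x)

variable {J L N : Type} [Group L] [CommGroup N] (D : Loc G M J L N)

/-- the relation on the embeddings -/
def rel (H : Subgroup G) (j j' : J) : Prop := ∃ τ : L, ∃ h ∈ H, D.lc τ j = D.rc j' h

lemma lc_inv (τ : L) (j j' : J) (g : G) (h : D.lc τ j = D.rc j' g) :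
    D.lc τ⁻¹ j' = D.rc j g⁻¹ := by
  have h1 : D.rc (D.lc τ j) g⁻¹ = j' := by rw [h, ← D.rc_mul, mul_inv_cancel, D.rc_one]
  rw [← h1, ← D.comm, ← D.lc_mul, inv_mul_cancel, D.lc_one]

lemma lc_trans {τ τ' : L} {j j' j'' : J} {g g' : G} (h : D.lc τ j = D.rc j' g)
    (h' : D.lc τ' j' = D.rc j'' g') : D.lc (τ' * τ) j = D.rc j'' (g' * g) := by
  rw [D.lc_mul, h, D.comm, h', D.rc_mul]

/-- the setoid -/
def setd (H : Subgroup G) : Setoid J where
  r := rel D H
  iseqv := by
    refine ⟨fun j => ⟨1, 1, H.one_mem, by rw [D.lc_one, D.rc_one]⟩, ?_, ?_⟩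
    · rintro j j' ⟨τ, h, hh, e⟩
      exact ⟨τ⁻¹, h⁻¹, H.inv_mem hh, lc_inv D τ j j' h e⟩
    · rintro j j' j'' ⟨τ, h, hh, e⟩ ⟨τ', h', hh', e'⟩
      exact ⟨τ' * τ, h' * h, H.mul_mem hh' hh, lc_trans D e e'⟩

/-- a compatible family of trivialisations -/
lemma exists_family {f : G → M} (hf : ∀ x ∈ H, ∀ y ∈ H, f (x * y) = f x * D.a x (f y))
    (hloc : ∀ j, ∃ P, ∀ τ, ∀ h ∈ H, D.lc τ j = D.rc j h → D.st j (f h) = D.b τ P / P) :
    ∃ P : J → N, ∀ τ j j', ∀ h ∈ H, D.lc τ j = D.rc j' h →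
      D.st j' (f h) = D.b τ (P j) / P j' := by
  classical
  choose P0 hP0 using hloc
  let rep : J → J := fun j => (Quotient.mk (setd D H) j).out
  have hrep : ∀ j, ∃ τ : L, ∃ h ∈ H, D.lc τ (rep j) = D.rc j h := fun j =>
    Quotient.exact (s := setd D H) (Quotient.out_eq _)
  choose t k hk htk using hrep
  refine ⟨fun j => D.b (t j) (P0 (rep j)) / D.st j (f (k j)), ?_⟩
  intro τ j j' h hh e
  have hrr : rep j = rep j' := by
    simp only [rep]
    congr 1
    exact Quotient.sound (s := setd D H) ⟨τ, h, hh, e⟩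
  have e1 := htk j
  have e2 := htk j'
  rw [← hrr] at e2
  have e3 : D.lc ((t j')⁻¹ * (τ * t j)) (rep j) = D.rc (rep j) ((k j')⁻¹ * (h * k j)) :=
    lc_trans D (lc_trans D e1 e) (lc_inv D _ _ _ _ e2)
  have h3 : (k j')⁻¹ * (h * k j) ∈ H := H.mul_mem (H.inv_mem (hk j')) (H.mul_mem hh (hk j))
  have e4 := hP0 (rep j) _ _ h3 e3
  have e5 := congrArg (D.b (t j')) e4
  rw [map_div, ← D.st_l, e2, D.st_r] at e5
  have e6 : D.b (t j') (D.b ((t j')⁻¹ * (τ * t j)) (P0 (rep j))) =
      D.b τ (D.b (t j) (P0 (rep j))) := by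
    have : t j' * ((t j')⁻¹ * (τ * t j)) = τ * t j := by group
    rw [← a_mul, this, a_mul]
  rw [e6] at e5
  have e7 : f (h * k j) = f (k j') * D.a (k j') (f ((k j')⁻¹ * (h * k j))) := by
    rw [← hf _ (hk j') _ h3]
    congr 1
    group
  rw [hf _ hh _ (hk j)] at e7
  have e8 := congrArg (D.st j') e7
  rw [map_mul, map_mul, e5, ← D.st_r, ← e, D.st_l] at e8
  simp only [map_div]
  rw [← hrr]
  have e9 : D.st j' (f h) = D.st j' (f (k j')) * ((D.b τ) ((D.b (t j)) (P0 (rep j))) /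
      (D.b (t j')) (P0 (rep j))) / D.b τ (D.st j (f (k j))) := by
    rw [← e8, mul_div_cancel_right]
  rw [e9]
  generalize D.st j' (f (k j')) = x1
  generalize (D.b τ) ((D.b (t j)) (P0 (rep j))) = x2
  generalize (D.b (t j')) (P0 (rep j)) = x3
  generalize D.b τ (D.st j (f (k j))) = x4
  rw [div_div_div_eq, mul_div_assoc', div_div, mul_comm x1 x2, mul_comm x3 x4]

variable [Fintype (G ⧸ H)] {s : G ⧸ H → G} (hs : ∀ q, (s q : G ⧸ H) = q)

include hs in
/-- the corestriction of a locally trivial cocycle is locally trivial -/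
lemma cor_loc {f : G → M} (hf : ∀ x ∈ H, ∀ y ∈ H, f (x * y) = f x * D.a x (f y))
    (hloc : ∀ j, ∃ P, ∀ τ, ∀ h ∈ H, D.lc τ j = D.rc j h → D.st j (f h) = D.b τ P / P) (j : J) :
    ∃ R, ∀ τ g, D.lc τ j = D.rc j g → D.st j (cor s D.a f g) = D.b τ R / R := by
  obtain ⟨P, hP⟩ := exists_family D hf hloc
  refine ⟨∏ q : G ⧸ H, P (D.rc j (s q)), fun τ g e => ?_⟩
  have e1 : ∏ q : G ⧸ H, P (D.rc j (s q)) =
      ∏ q : G ⧸ H, P (D.rc j (s (g • q))) :=
    (Equiv.prod_comp (MulAction.toPerm g : Equiv.Perm (G ⧸ H)) (fun q : G ⧸ H =>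
      P (D.rc j (s q)))).symm
  conv_rhs => rw [div_eq_mul_inv]; arg 2; rw [e1]
  rw [← div_eq_mul_inv, map_prod, ← prod_div_distrib]
  unfold cor
  rw [map_prod]
  refine prod_congr rfl fun q _ => ?_
  rw [← D.st_r, hP τ (D.rc j (s q)) (D.rc j (s (g • q))) _ (mem_H hs g q)]
  rw [D.comm, e, ← D.rc_mul, ← D.rc_mul]
  congr 1
  group

end loc

end Pool.Agent.D0H99.EA
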