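import Pool.Agent.D0H99.EA.Ker

/-!
# Descent along a Kummer extension
-/

set_option autoImplicit false
set_option linter.all false

open Polynomial

namespace Pool.Agent.D0H99.EA

open Pool.Agent.Y713.SE (CR)
open Pool.Agent.Y713.Jac (J mapJ Gal Cochain IsCocycle IsCoboundary IsTrivialOver IsLocallyTrivial
  ShaPrimaryTrivial ShaTateTrivial)
open CommRing (Pic)

section cob
variable {ℓ : ℕ} {K : Type} [Field K] {F : K[X]}

lemma cob_congr {f g : Cochain ℓ F} (hf : IsCoboundary ℓ F f) (h : ∀ σ, g σ = f σ) :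
    IsCoboundary ℓ F g := by
  obtain ⟨P, hP⟩ := hf
  exact ⟨P, fun σ => (h σ).trans (hP σ)⟩

lemma cob_mul {f g : Cochain ℓ F} (hf : IsCoboundary ℓ F f) (hg : IsCoboundary ℓ F g) :
    IsCoboundary ℓ F (fun σ => f σ * g σ) := by
  obtain ⟨P, hP⟩ := hf
  obtain ⟨Q, hQ⟩ := hg
  refine ⟨P * Q, fun σ => ?_⟩
  change f σ * g σ = _
  rw [hP, hQ, map_mul, mul_div_mul_comm]

lemma cob_div {f g : Cochain ℓ F} (hf : IsCoboundary ℓ F f) (hg : IsCoboundary ℓ F g) :
    IsCoboundary ℓ F (fun σ => f σ / g σ) := by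
  obtain ⟨P, hP⟩ := hf
  obtain ⟨Q, hQ⟩ := hg
  refine ⟨P / Q, fun σ => ?_⟩
  change f σ / g σ = _
  rw [hP, hQ, _root_.map_div, div_div_div_comm]

lemma cob_pow {f : Cochain ℓ F} (hf : IsCoboundary ℓ F f) (n : ℕ) :
    IsCoboundary ℓ F (fun σ => f σ ^ n) := by
  obtain ⟨P, hP⟩ := hf
  refine ⟨P ^ n, fun σ => ?_⟩
  change f σ ^ n = _
  rw [hP, map_pow, div_pow]

/-- the `ℓ`-primary part is killed by `ℓ ^ m` -/
def Killed (ℓ m : ℕ) {K : Type} [Field K] (F : K[X]) (R : Type) [CommRing R] [IsDedekindDomain R]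
    [Algebra R K] [IsFractionRing R K] : Prop :=
  ∀ (f : Cochain ℓ F) (n : ℕ), IsCocycle ℓ F f → IsLocallyTrivial ℓ F R f →
    IsCoboundary ℓ F (fun σ => f σ ^ ℓ ^ n) → IsCoboundary ℓ F (fun σ => f σ ^ ℓ ^ m)

variable {R : Type} [CommRing R] [IsDedekindDomain R] [Algebra R K] [IsFractionRing R K]

lemma killed_zero (h : ShaPrimaryTrivial ℓ F R) : Killed ℓ 0 F R := by
  intro f n h1 h2 h3
  exact cob_congr (h f n h1 h2 h3) fun σ => by rw [pow_zero, pow_one]

theorem Killed.tate {m : ℕ} (h : Killed ℓ m F R) : ShaTateTrivial ℓ F R := by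
  intro c h1 h2 h3 h4 a
  have key : ∀ k, IsCoboundary ℓ F (fun σ => c (a + k) σ ^ ℓ ^ k / c a σ) := by
    intro k
    induction k with
    | zero =>
      refine ⟨1, fun σ => ?_⟩
      change c (a + 0) σ ^ ℓ ^ 0 / c a σ = _
      rw [add_zero, pow_zero, pow_one, div_self', map_one, div_one]
    | succ k ih =>
      refine cob_congr (cob_mul (cob_pow (h4 (a + k)) (ℓ ^ k)) ih) fun σ => ?_
      rw [div_pow, div_mul_div_cancel, ← pow_mul, pow_succ' ℓ k]
      rfl
  refine cob_congr (cob_div (h (c (a + m)) (a + m) (h1 _) (h2 _) (h3 _)) (key m)) fun σ => ?_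
  rw [div_div_cancel]

end cob

/-- the isomorphism of the separable closures -/
theorem exists_iso (K L : Type) [Field K] [Field L] [Algebra K L] [Algebra.IsSeparable K L] :
    ∃ e : SeparableClosure L ≃+* SeparableClosure K,
      ∀ x : K, e (algebraMap L (SeparableClosure L) (algebraMap K L x)) =
        algebraMap K (SeparableClosure K) x := by
  letI i1 : Algebra K (SeparableClosure L) :=
    ((algebraMap L (SeparableClosure L)).comp (algebraMap K L)).toAlgebra
  haveI i2 : IsScalarTower K L (SeparableClosure L) := IsScalarTower.of_algebraMap_eq fun _ => rfl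
  haveI i3 : Algebra.IsSeparable K (SeparableClosure L) := Algebra.IsSeparable.trans K L _
  haveI i4 : IsSepClosure K (SeparableClosure L) := ⟨inferInstance, i3⟩
  haveI i5 : IsSepClosure K (SeparableClosure K) := ⟨inferInstance, inferInstance⟩
  let e : SeparableClosure L ≃ₐ[K] SeparableClosure K :=
    IsSepClosure.equiv K (SeparableClosure L) (SeparableClosure K)
  exact ⟨e.toRingEquiv, fun x => e.commutes x⟩

section main

variable {K L : Type} [Field K] [Field L] [Algebra K L]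
  (e : SeparableClosure L ≃+* SeparableClosure K)
  (he : ∀ x : K, e (algebraMap L (SeparableClosure L) (algebraMap K L x)) =
    algebraMap K (SeparableClosure K) x)
  {ℓ : ℕ} {ι : Type} [Fintype ι] [DecidableEq ι] {r : ι → L} {d : ι → K}
  (hr : ∀ i, r i ^ ℓ = algebraMap K L (d i)) (hd : ∀ i, d i ≠ 0)
  (hgen : IntermediateField.adjoin K (Set.range r) = ⊤)
  {ζ : K} (hζ : IsPrimitiveRoot ζ ℓ)

/-- the twisting elements -/
def dT (d : ι → K) (t : ι → Fin ℓ) : K := ∏ i, d i ^ (t i : ℕ)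

/-- their roots -/
def sT (r : ι → L) (t : ι → Fin ℓ) : L := ∏ i, r i ^ (t i : ℕ)

include hr in
lemma sT_pow (t : ι → Fin ℓ) : sT r t ^ ℓ = algebraMap K L (dT d t) := by
  unfold sT dT
  rw [← Finset.prod_pow, map_prod]
  refine Finset.prod_congr rfl fun i _ => ?_
  rw [← pow_mul, mul_comm, pow_mul, hr, map_pow]

include hd in
lemma dT_ne (t : ι → Fin ℓ) : dT d t ≠ 0 := by
  unfold dT
  exact Finset.prod_ne_zero_iff.2 fun i _ => pow_ne_zero _ (hd i)

lemma rh_prod (t : ι → Fin ℓ) : rh e (sT r t) = ∏ i, rh e (r i) ^ (t i : ℕ) := by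
  unfold rh sT
  rw [map_prod, map_prod]
  exact Finset.prod_congr rfl fun i _ => by rw [map_pow, map_pow]

lemma ok_zero (F : K[X]) {φ : SeparableClosure L →+* SeparableClosure K}
    (hφ : ∀ x : K, φ (algebraMap L (SeparableClosure L) (algebraMap K L x)) =
    algebraMap K (SeparableClosure K) x) :
    Ok ℓ ((F.map (algebraMap K L)).map (algebraMap L (SeparableClosure L)))
      (F.map (algebraMap K (SeparableClosure K))) φ 1 := by
  unfold Ok
  rw [one_pow, C_1, one_mul, Polynomial.map_map, Polynomial.map_map]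
  congr 1
  exact (RingHom.ext hφ).symm

lemma ok_zero' (F : K[X]) {φ : SeparableClosure K →+* SeparableClosure L}
    (hφ : ∀ x : K, φ (algebraMap K (SeparableClosure K) x) =
      algebraMap L (SeparableClosure L) (algebraMap K L x)) :
    Ok ℓ (F.map (algebraMap K (SeparableClosure K)))
      ((F.map (algebraMap K L)).map (algebraMap L (SeparableClosure L))) φ 1 := by
  unfold Ok
  rw [one_pow, C_1, one_mul, Polynomial.map_map, Polynomial.map_map]
  congr 1
  exact (RingHom.ext hφ).symm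

variable {F : K[X]} (hp : ℓ.Prime) (hK : (ℓ : K) ≠ 0) (hs : F.Splits) (hsep : F.Separable)
  (hn : ¬ ℓ ∣ F.natDegree) [Fintype (Gal K ⧸ HH e)]

include hr hd hgen hζ hK hs hsep hn in
/-- the kernel of the corestriction maps -/
theorem ker_Th {f : Cochain ℓ (F.map (algebraMap K L))}
    (h : ∀ t : ι → Fin ℓ, IsCoboundary ℓ (C (dT d t) * F)
      (Th e he ℓ F hp.pos (sT_pow hr t) (dT_ne hd t) f)) :
    IsCoboundary ℓ (F.map (algebraMap K L)) (fun σ => f σ ^ ℓ ^ Fintype.card ι) := by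
  have hρ : ∀ t : ι → Fin ℓ, rh e (sT r t) ^ ℓ = algebraMap K (SeparableClosure K) (dT d t) := by
    intro t
    unfold rh
    rw [← map_pow, ← map_pow, sT_pow hr, he]
  have hρ0 : ∀ t : ι → Fin ℓ, rh e (sT r t) ≠ 0 := by
    intro t h0
    have := hρ t
    rw [h0, zero_pow hp.ne_zero, eq_comm, _root_.map_eq_zero] at this
    exact dT_ne hd t this
  -- the cochain on the group of `K`
  let f0 : Gal K → J ℓ F (SeparableClosure K) := fun g =>
    pm (e : SeparableClosure L →+* SeparableClosure K) 1 (ok_zero F he) (f (cF e g))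
  let a : (ι → Fin ℓ) → (Gal K →* Monoid.End (J ℓ F (SeparableClosure K))) := fun t =>
    aT F (hρ t) (dT_ne hd t) (hρ0 t)
  have hconj : ∀ (t : ι → Fin ℓ) (g : Gal K), pm (RingHom.id _) (rh e (sT r t)) (ok_psi F (hρ t))
      (Th e he ℓ F hp.pos (sT_pow hr t) (dT_ne hd t) f g) = cor (sec (HH e)) (a t) f0 g := by
    intro t g
    refine cor_conj (sec (HH e)) (aN ℓ (C (dT d t) * F)) (a t)
      (pm (RingHom.id _) (rh e (sT r t)) (ok_psi F (hρ t)))
      (fun g x => psi_act F (hρ t) (dT_ne hd t) (hρ0 t) g x) _ f0 (fun g => ?_) g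
    refine pm_pm' _ _ _ (fun x => rfl) ?_ _
    rw [RingHom.id_apply]
    exact inv_mul_cancel₀ (hρ0 t)
  haveI : (HH e).Normal := HH_normal e he hr hd hgen hζ hp.pos
  have hnot : ∀ g, g ∉ HH e → ∀ x, ∏ t, a t g x = 1 := by
    intro g hg x
    rw [mem_HH', fx_iff e he hgen, not_forall] at hg
    obtain ⟨i₀, hi⟩ := hg
    have h0 := rh_ne e he hr hd hp.pos
    let ω : ι → SeparableClosure K := fun i => rh e (r i) / g (rh e (r i))
    have hω : ∀ i, ω i ^ ℓ = 1 := by
      intro i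
      change (rh e (r i) / g (rh e (r i))) ^ ℓ = 1
      rw [div_pow, ← map_pow, rh_pow e he hr, AlgEquiv.commutes, div_self]
      exact (_root_.map_ne_zero _).2 (hd i)
    have h₀ : ω i₀ ≠ 1 := by
      intro h1
      change rh e (r i₀) / g (rh e (r i₀)) = 1 at h1
      rw [div_eq_one_iff_eq ((_root_.map_ne_zero _).2 (h0 i₀))] at h1
      exact hi h1.symm
    have hok : ∀ t : ι → Fin ℓ, (∏ i, ω i ^ (t i : ℕ)) ^ ℓ = 1 := by
      intro t
      rw [← Finset.prod_pow]
      refine Finset.prod_eq_one fun i _ => ?_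
      rw [← pow_mul, mul_comm, pow_mul, hω, one_pow]
    have h5 := prod_all hp hK hs hsep hn hω h₀ hok (mapJ ℓ F g.toAlgHom x)
    rw [← h5]
    refine Finset.prod_congr rfl fun t _ => ?_
    rw [mapJ_eq]
    symm
    refine pm_pm' _ _ _ (fun x => rfl) ?_ x
    rw [RingHom.id_apply, one_mul, rh_prod, map_prod, ← Finset.prod_div_distrib]
    refine Finset.prod_congr rfl fun i _ => ?_
    change (rh e (r i) / g (rh e (r i))) ^ (t i : ℕ) = _
    rw [div_pow, map_pow]
  choose P hP using h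
  -- the point
  let Q : J ℓ F (SeparableClosure K) := ∏ t : ι → Fin ℓ,
    pm (RingHom.id _) (rh e (sT r t)) (ok_psi F (hρ t)) (P t)
  have he2 : ∀ x : K, (e.symm : SeparableClosure K →+* SeparableClosure L)
      (algebraMap K (SeparableClosure K) x) =
      algebraMap L (SeparableClosure L) (algebraMap K L x) := he' e he
  refine ⟨pm (e.symm : SeparableClosure K →+* SeparableClosure L) 1 (ok_zero' F he2) Q,
    fun σ => ?_⟩
  have hσ : Fx e (cQ e he σ) := cQ_fx e he σ
  have hσ' : cQ e he σ ∈ HH e := hσ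
  have h3 := prod_cor (sec_spec (HH e)) (sec_one _) a hnot f0 (cQ e he σ) hσ'
  have h4 : ∀ t : ι → Fin ℓ, cor (sec (HH e)) (a t) f0 (cQ e he σ) =
      mapJ ℓ F (cQ e he σ).toAlgHom (pm (RingHom.id _) (rh e (sT r t)) (ok_psi F (hρ t)) (P t)) /
        pm (RingHom.id _) (rh e (sT r t)) (ok_psi F (hρ t)) (P t) := by
    intro t
    rw [← hconj, hP t, _root_.map_div]
    congr 1
    refine (psi_act F (hρ t) (dT_ne hd t) (hρ0 t) (cQ e he σ) (P t)).trans ?_
    rw [mapJ_eq]
    refine pm_congr _ _ (fun x => rfl) ?_ _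
    have h6 : cQ e he σ (rh e (sT r t)) = rh e (sT r t) := hσ (sT r t)
    rw [h6, div_self (hρ0 t)]
  have h5 : ∏ t, cor (sec (HH e)) (a t) f0 (cQ e he σ) =
      mapJ ℓ F (cQ e he σ).toAlgHom Q / Q := by
    rw [Finset.prod_congr rfl fun t _ => h4 t, Finset.prod_div_distrib, ← map_prod]
  rw [h5] at h3
  have h6 := congrArg (pm (e.symm : SeparableClosure K →+* SeparableClosure L) 1
    (ok_zero' F he2)) h3
  rw [_root_.map_div, map_pow] at h6
  have h7 : pm (e.symm : SeparableClosure K →+* SeparableClosure L) 1 (ok_zero' F he2)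
      (f0 (cQ e he σ)) = f σ := by
    change pm _ _ _ (pm _ _ _ (f (cF e (cQ e he σ)))) = f σ
    rw [cF_cQ, pm_pm]
    refine pm_id _ (fun x => ?_) ?_ _
    · exact e.symm_apply_apply x
    · rw [map_one, one_mul]
  have h8 : pm (e.symm : SeparableClosure K →+* SeparableClosure L) 1 (ok_zero' F he2)
      (mapJ ℓ F (cQ e he σ).toAlgHom Q) = mapJ ℓ (F.map (algebraMap K L)) σ.toAlgHom
      (pm (e.symm : SeparableClosure K →+* SeparableClosure L) 1 (ok_zero' F he2) Q) := by
    rw [mapJ_eq, mapJ_eq, pm_pm, pm_pm]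
    refine pm_congr _ _ (fun x => ?_) ?_ _
    · change e.symm (e (σ (e.symm x))) = σ (e.symm x)
      rw [RingEquiv.symm_apply_apply]
    · rw [map_one, map_one]
  rw [h7, h8] at h6
  change f σ ^ ℓ ^ Fintype.card ι = _
  rw [h6, Fintype.card_fun, Fintype.card_fin]

end main

/-- **Descent along a Kummer extension.** -/
theorem desc {ℓ : ℕ} (hp : ℓ.Prime) {K L R R' : Type} [Field K] [Field L] [Algebra K L]
    [FiniteDimensional K L] [Algebra.IsSeparable K L]
    [CommRing R] [IsDedekindDomain R] [CommRing R'] [IsDedekindDomain R'] [Algebra R' L]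
    [IsFractionRing R' L] [Algebra R K] [IsFractionRing R K] [Algebra R R'] [Algebra R L]
    [IsScalarTower R K L] [IsScalarTower R R' L] [Algebra.IsIntegral R R']
    (hK : (ℓ : K) ≠ 0) {ζ : K} (hζ : IsPrimitiveRoot ζ ℓ)
    {ι : Type} [Fintype ι] [DecidableEq ι] {r : ι → L} {d : ι → K}
    (hr : ∀ i, r i ^ ℓ = algebraMap K L (d i)) (hd : ∀ i, d i ≠ 0)
    (hgen : IntermediateField.adjoin K (Set.range r) = ⊤)
    {F : K[X]} (hs : F.Splits) (hsep : F.Separable) (hn : ¬ ℓ ∣ F.natDegree) {m : ℕ}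
    (h : ∀ t : ι → Fin ℓ, Killed ℓ m (C (dT d t) * F) R) :
    Killed ℓ (m + Fintype.card ι) (F.map (algebraMap K L)) R' := by
  intro f n h1 h2 h3
  obtain ⟨e, he⟩ := exists_iso K L
  haveI : Finite (Gal K ⧸ HH e) := HH_finite e he hgen
  haveI : Fintype (Gal K ⧸ HH e) := Fintype.ofFinite _
  have key : IsCoboundary ℓ (F.map (algebraMap K L))
      (fun σ => (fun σ => f σ ^ ℓ ^ m) σ ^ ℓ ^ Fintype.card ι) := by
    refine ker_Th e he hr hd hgen hζ hp hK hs hsep hn fun t => ?_
    rw [Th_pow]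
    refine h t _ n (Th_coc e he hgen hp.pos (sT_pow hr t) (dT_ne hd t) h1)
      (Th_loc e he hp.pos (sT_pow hr t) (dT_ne hd t) h1 h2) ?_
    have h4 := Th_cob e he hp.pos (sT_pow hr t) (dT_ne hd t) h3
    rwa [Th_pow] at h4
  refine cob_congr key fun σ => ?_
  change _ = (f σ ^ ℓ ^ m) ^ ℓ ^ Fintype.card ι
  rw [← pow_mul, pow_add]

end Pool.Agent.D0H99.EA
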