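import Pool.Agent.D0H99.EA.Desc
import Pool.Agent.R431.SG.TwistL

/-!
# Almost all twists over elementary abelian coverings of the line
-/

set_option autoImplicit false
set_option linter.all false

open Polynomial NumberField

namespace Pool.Agent.D0H99.EA

open Pool.Agent.Y713.Jac (ShaPrimaryTrivial ShaTateTrivial)
open Pool.Agent.R431.SG (pol twists_mainL box_fin)

/-- union bound -/
lemma union_bound {α T : Type} [Fintype T] [DecidableEq T] {A : Set α} {S : T → Set α} {x : α}
    (hS : ∀ t, (S t).Finite) (hA : ∀ c ∈ A, c = x ∨ ∃ t, c ∈ S t) :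
    A.ncard ≤ 1 + ∑ t, (S t).ncard := by
  have h1 : A ⊆ {x} ∪ ⋃ t, S t := by
    intro c hc
    rcases hA c hc with rfl | ⟨t, ht⟩
    · exact Or.inl rfl
    · exact Or.inr (Set.mem_iUnion.2 ⟨t, ht⟩)
  refine (Set.ncard_le_ncard h1 ((Set.finite_singleton x).union (Set.finite_iUnion hS))).trans ?_
  refine (Set.ncard_union_le _ _).trans ?_
  rw [Set.ncard_singleton]
  refine Nat.add_le_add_left ?_ 1
  have h2 : ∀ s : Finset T, (⋃ t ∈ s, S t).ncard ≤ ∑ t ∈ s, (S t).ncard := by
    intro s
    induction s using Finset.induction_on with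
    | empty => simp
    | insert a s ha ih =>
      rw [Finset.sum_insert ha, Finset.set_biUnion_insert]
      exact (Set.ncard_union_le _ _).trans (Nat.add_le_add_left ih _)
  have h3 := h2 Finset.univ
  simpa using h3

/-- removing the zeros from the generators -/
lemma gen_ne {K L : Type} [Field K] [Field L] [Algebra K L] {ℓ r : ℕ} (hℓ : 0 < ℓ) {u : Fin r → L}
    (hu : ∀ i, ∃ d : K, u i ^ ℓ = algebraMap K L d)
    (hgen : IntermediateField.adjoin K (Set.range u) = ⊤) :
    ∃ (u' : Fin r → L) (d : Fin r → K), (∀ i, u' i ^ ℓ = algebraMap K L (d i)) ∧ (∀ i, d i ≠ 0) ∧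
      IntermediateField.adjoin K (Set.range u') = ⊤ := by
  classical
  choose d hd using hu
  refine ⟨fun i => if u i = 0 then 1 else u i, fun i => if u i = 0 then 1 else d i, fun i => ?_,
    fun i => ?_, ?_⟩
  · simp only
    split_ifs with h
    · rw [one_pow, map_one]
    · exact hd i
  · simp only
    split_ifs with h
    · exact one_ne_zero
    · intro h0
      have h1 := hd i
      rw [h0, map_zero] at h1
      exact h (pow_eq_zero_iff hℓ.ne' |>.1 h1)
  · rw [eq_top_iff, ← hgen, IntermediateField.adjoin_le_iff]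
    rintro _ ⟨i, rfl⟩
    by_cases h : u i = 0
    · rw [h]
      exact zero_mem _
    · refine IntermediateField.subset_adjoin _ _ ⟨i, ?_⟩
      simp only
      rw [if_neg h]

/-- generated by radicals implies finite -/
lemma fin_of_gen {K L : Type} [Field K] [Field L] [Algebra K L] {ℓ r : ℕ} (hℓ : 0 < ℓ)
    {u : Fin r → L} {d : Fin r → K} (hu : ∀ i, u i ^ ℓ = algebraMap K L (d i))
    (hgen : IntermediateField.adjoin K (Set.range u) = ⊤) : FiniteDimensional K L := by
  have h1 : FiniteDimensional K (IntermediateField.adjoin K (Set.range u)) := by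
    apply IntermediateField.finiteDimensional_adjoin
    rintro _ ⟨i, rfl⟩
    refine IsIntegral.of_pow hℓ ?_
    rw [hu]
    exact isIntegral_algebraMap
  rw [hgen] at h1
  exact Module.Finite.equiv (IntermediateField.topEquiv (F := K) (E := L)).toLinearEquiv

theorem main_nf {k : Type} [Field k] [NumberField k] {I : Type} [Fintype I]
    (B : Module.Basis I ℤ (𝓞 k)) {ℓ : ℕ} (hℓ : ℓ.Prime) {ζ : k} (hζ : IsPrimitiveRoot ζ ℓ)
    {L : Type} [Field L] [Algebra (RatFunc k) L] [Algebra k[X] L]
    [IsScalarTower k[X] (RatFunc k) L] {r : ℕ} {u : Fin r → L}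
    (hu : ∀ i, ∃ d : RatFunc k, u i ^ ℓ = algebraMap (RatFunc k) L d)
    (hgen : IntermediateField.adjoin (RatFunc k) (Set.range u) = ⊤)
    {R : Type} [CommRing R] [IsDedekindDomain R] [Algebra R L] [IsFractionRing R L]
    [Algebra k[X] R] [IsScalarTower k[X] R L] [IsIntegralClosure R k[X] L]
    {F : (RatFunc k)[X]} (hs : F.Splits) (hsep : F.Separable) (hdeg : ¬ ℓ ∣ F.natDegree)
    {n : ℕ} (hn : 2 ≤ n) (hn2 : n = 2 → ℓ ≠ 2) {η : ℝ} (hη : 0 < η) :
    ∃ H₀ : ℕ, ∀ H : ℕ, H₀ ≤ H →
      ({c : Fin (n + 1) → 𝓞 k | (∀ i j, |B.repr (c i) j| ≤ (H : ℤ)) ∧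
        ¬ Killed ℓ r ((C (algebraMap k[X] (RatFunc k)
          (pol fun j => algebraMap (𝓞 k) k (c j))) * F).map (algebraMap (RatFunc k) L)) R}.ncard :
          ℝ) ≤ η * (2 * (H : ℝ) + 1) ^ ((n + 1) * Fintype.card I) := by
  classical
  obtain ⟨u', d, hu', hd, hgen'⟩ := gen_ne hℓ.pos hu hgen
  haveI : FiniteDimensional (RatFunc k) L := fin_of_gen hℓ.pos hu' hgen'
  haveI : CharZero (RatFunc k) := by
    have : Function.Injective ((algebraMap k[X] (RatFunc k)).comp (C : k →+* k[X])) :=
      (RingHom.injective _)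
    exact charZero_of_injective_ringHom this
  haveI : Algebra.IsSeparable (RatFunc k) L := inferInstance
  haveI : Algebra.IsIntegral k[X] R := IsIntegralClosure.isIntegral_algebra k[X] L
  -- the constants
  set N : ℕ := Fintype.card (Fin r → Fin ℓ) with hN
  set η' : ℝ := η / (N + 1) with hη'
  have hη0 : 0 < η' := by positivity
  have hFt : ∀ t : Fin r → Fin ℓ, (C (dT d t) * F).Splits ∧ (C (dT d t) * F).Separable ∧
      ¬ ℓ ∣ (C (dT d t) * F).natDegree := by
    intro t
    have h0 := dT_ne (ℓ := ℓ) hd t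
    refine ⟨(Splits.C _).mul hs, ?_, ?_⟩
    · refine hsep.of_dvd ⟨C ((dT d t)⁻¹), ?_⟩
      rw [mul_comm (C (dT d t)), mul_assoc, ← C_mul, mul_inv_cancel₀ h0, C_1, mul_one]
    · rwa [natDegree_C_mul h0]
  choose H1 hH1 using fun t : Fin r → Fin ℓ =>
    twists_mainL B hℓ hζ (hFt t).1 (hFt t).2.1 (hFt t).2.2 hn hn2 hη0
  obtain ⟨H2, hH2⟩ : ∃ H2 : ℕ, 1 / η' ≤ H2 := exists_nat_ge _
  refine ⟨max (Finset.univ.sup H1) H2, fun H hH => ?_⟩
  have hHt : ∀ t, H1 t ≤ H := fun t =>
    (Finset.le_sup (Finset.mem_univ t)).trans ((le_max_left _ _).trans hH)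
  have hH2' : H2 ≤ H := (le_max_right _ _).trans hH
  haveI hI : Nonempty I := by
    by_contra h
    haveI := not_nonempty_iff.1 h
    haveI : Subsingleton (𝓞 k) := B.repr.toEquiv.subsingleton
    exact one_ne_zero (α := 𝓞 k) (Subsingleton.elim _ _)
  have hcard : 1 ≤ (n + 1) * Fintype.card I := Nat.mul_pos (Nat.succ_pos n) Fintype.card_pos
  have hone : (1 : ℝ) ≤ η' * (2 * (H : ℝ) + 1) ^ ((n + 1) * Fintype.card I) := by
    have h1 : (1 : ℝ) / η' ≤ 2 * (H : ℝ) + 1 := by
      have : ((H2 : ℕ) : ℝ) ≤ H := by exact_mod_cast hH2'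
      have h0 : (0 : ℝ) ≤ H := Nat.cast_nonneg _
      linarith
    have h2 : 2 * (H : ℝ) + 1 ≤ (2 * (H : ℝ) + 1) ^ ((n + 1) * Fintype.card I) := by
      refine le_self_pow₀ ?_ (by omega)
      have h0 : (0 : ℝ) ≤ H := Nat.cast_nonneg _
      linarith
    have h3 := h1.trans h2
    rw [div_le_iff₀ hη0] at h3
    linarith
  have hub := union_bound (T := Fin r → Fin ℓ)
    (A := {c : Fin (n + 1) → 𝓞 k | (∀ i j, |B.repr (c i) j| ≤ (H : ℤ)) ∧
        ¬ Killed ℓ r ((C (algebraMap k[X] (RatFunc k)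
          (pol fun j => algebraMap (𝓞 k) k (c j))) * F).map (algebraMap (RatFunc k) L)) R})
    (S := fun t => {c : Fin (n + 1) → 𝓞 k | (∀ i j, |B.repr (c i) j| ≤ (H : ℤ)) ∧
        ¬ ShaPrimaryTrivial ℓ (C (algebraMap k[X] (RatFunc k)
          (pol fun j => algebraMap (𝓞 k) k (c j))) * (C (dT d t) * F)) k[X]})
    (x := 0) (fun t => (box_fin B H).subset fun c hc => hc.1) (by
      rintro c ⟨hc, hno⟩
      by_cases h0 : c = 0
      · exact Or.inl h0
      refine Or.inr ?_
      by_contra hcon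
      rw [not_exists] at hcon
      apply hno
      have hall : ∀ t : Fin r → Fin ℓ, ShaPrimaryTrivial ℓ (C (algebraMap k[X] (RatFunc k)
          (pol fun j => algebraMap (𝓞 k) k (c j))) * (C (dT d t) * F)) k[X] := by
        intro t
        by_contra hh
        exact hcon t ⟨hc, hh⟩
      have hD0 : algebraMap k[X] (RatFunc k) (pol fun j => algebraMap (𝓞 k) k (c j)) ≠ 0 := by
        rw [Ne, map_eq_zero_iff _ (IsFractionRing.injective k[X] (RatFunc k))]
        intro hp
        apply h0
        funext j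
        have h1 := congrArg (fun p => p.coeff (j : ℕ)) hp
        simp only [coeff_zero] at h1
        have h2 : (pol fun j => algebraMap (𝓞 k) k (c j)).coeff (j : ℕ) =
            algebraMap (𝓞 k) k (c j) := by
          unfold pol
          rw [finset_sum_coeff, Finset.sum_eq_single j]
          · simp
          · intro i _ hij
            rw [coeff_C_mul, coeff_X_pow, if_neg, mul_zero]
            intro h
            exact hij (Fin.ext h.symm)
          · intro h
            exact absurd (Finset.mem_univ _) h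
        rw [h2] at h1
        exact (map_eq_zero_iff _ (FaithfulSMul.algebraMap_injective (𝓞 k) k)).1 h1
      set D : RatFunc k := algebraMap k[X] (RatFunc k)
        (pol fun j => algebraMap (𝓞 k) k (c j)) with hD
      have hF1 : (C D * F).Splits := (Splits.C _).mul hs
      have hF2 : (C D * F).Separable := by
        refine hsep.of_dvd ⟨C (D⁻¹), ?_⟩
        rw [mul_comm (C D), mul_assoc, ← C_mul, mul_inv_cancel₀ hD0, C_1, mul_one]
      have hF3 : ¬ ℓ ∣ (C D * F).natDegree := by rwa [natDegree_C_mul hD0]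
      have hζ' : IsPrimitiveRoot (algebraMap k[X] (RatFunc k) (C ζ)) ℓ :=
        hζ.map_of_injective (f := (algebraMap k[X] (RatFunc k)).comp C)
          ((IsFractionRing.injective k[X] (RatFunc k)).comp C_injective)
      have key := desc (R := k[X]) (R' := R) hℓ (by exact_mod_cast hℓ.ne_zero) hζ' hu' hd hgen'
        hF1 hF2 hF3 (m := 0) (fun t => by
          have h5 := killed_zero (hall t)
          have h6 : C D * (C (dT d t) * F) = C (dT d t) * (C D * F) := by ring
          rwa [h6] at h5)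
      rwa [zero_add, Fintype.card_fin] at key)
  have h7 : (({c : Fin (n + 1) → 𝓞 k | (∀ i j, |B.repr (c i) j| ≤ (H : ℤ)) ∧
        ¬ Killed ℓ r ((C (algebraMap k[X] (RatFunc k)
          (pol fun j => algebraMap (𝓞 k) k (c j))) * F).map
            (algebraMap (RatFunc k) L)) R}.ncard : ℕ) : ℝ) ≤
      1 + ∑ t : Fin r → Fin ℓ, η' * (2 * (H : ℝ) + 1) ^ ((n + 1) * Fintype.card I) := by
    refine (Nat.cast_le.2 hub).trans ?_
    push_cast
    refine add_le_add le_rfl (Finset.sum_le_sum fun t _ => ?_)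
    exact hH1 t H (hHt t)
  refine h7.trans ?_
  rw [Finset.sum_const, Finset.card_univ, nsmul_eq_mul, ← hN]
  have h8 : η = η' * (N + 1) := by
    rw [hη', div_mul_cancel₀]
    positivity
  rw [h8]
  nlinarith

end Pool.Agent.D0H99.EA
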