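import Pool.Agent.D0H99.EA.Th

/-!
# The kernel of the corestriction maps
-/

set_option autoImplicit false
set_option linter.all false

open Polynomial

namespace Pool.Agent.D0H99.EA

open Pool.Agent.Y713.SE (CR)
open Pool.Agent.Y713.Jac (J mapJ Gal Cochain IsCocycle IsCoboundary IsTrivialOver)
open CommRing (Pic)

section conj
variable {G M M' : Type} [Group G] [CommGroup M] [CommGroup M'] {H : Subgroup G} [Fintype (G ⧸ H)]

lemma cor_conj (s : G ⧸ H → G) (a : G →* Monoid.End M) (a' : G →* Monoid.End M') (Ψ : M →* M')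
    (h : ∀ g x, Ψ (a g x) = a' g (Ψ x)) (f : G → M) (f' : G → M') (hf : ∀ g, Ψ (f g) = f' g)
    (g : G) : Ψ (cor s a f g) = cor s a' f' g := by
  unfold cor
  rw [map_prod]
  exact Finset.prod_congr rfl fun q _ => by rw [h, hf]

end conj

section twist
variable {K : Type} [Field K] {ℓ : ℕ} (F : K[X])

lemma ok_gal {ρ : SeparableClosure K} {dd : K} (hρ : ρ ^ ℓ = algebraMap K _ dd) (hdd : dd ≠ 0)
    (g : Gal K) : Ok ℓ (F.map (algebraMap K (SeparableClosure K)))
      (F.map (algebraMap K (SeparableClosure K))) (g : SeparableClosure K →+* SeparableClosure K)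
      (ρ / g ρ) := by
  have h1 : (ρ / g ρ) ^ ℓ = 1 := by
    rw [div_pow, ← map_pow, hρ, AlgEquiv.commutes, div_self]
    exact (_root_.map_ne_zero _).2 hdd
  unfold Ok
  rw [h1, C_1, one_mul, Polynomial.map_map]
  congr 1
  exact (RingHom.ext fun x => g.commutes x).symm

/-- the twisted action -/
noncomputable def aT {ρ : SeparableClosure K} {dd : K} (hρ : ρ ^ ℓ = algebraMap K _ dd)
    (hdd : dd ≠ 0) (h0 : ρ ≠ 0) : Gal K →* Monoid.End (J ℓ F (SeparableClosure K)) where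
  toFun g := pm (g : SeparableClosure K →+* SeparableClosure K) (ρ / g ρ) (ok_gal F hρ hdd g)
  map_one' := by
    refine MonoidHom.ext fun P => ?_
    exact pm_id _ (fun x => rfl) (div_self h0) P
  map_mul' g g' := by
    have h1 : g ρ ≠ 0 := (_root_.map_ne_zero _).2 h0
    have h2 : (g : SeparableClosure K →+* SeparableClosure K) (ρ / g' ρ) * (ρ / g ρ) =
        ρ / (g * g') ρ := by
      change g (ρ / g' ρ) * (ρ / g ρ) = ρ / g (g' ρ)
      rw [map_div₀, div_mul_div_comm, mul_comm (g ρ) ρ, mul_div_mul_right _ _ h1]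
    refine MonoidHom.ext fun P => ?_
    exact (pm_pm' (ok_gal F hρ hdd g') (ok_gal F hρ hdd g) (ok_gal F hρ hdd (g * g'))
      (fun x => rfl) h2 P).symm

/-- the isomorphism with the twist -/
lemma ok_psi {ρ : SeparableClosure K} {dd : K} (hρ : ρ ^ ℓ = algebraMap K _ dd) :
    Ok ℓ ((C dd * F).map (algebraMap K (SeparableClosure K)))
      (F.map (algebraMap K (SeparableClosure K))) (RingHom.id _) ρ := by
  unfold Ok
  rw [Polynomial.map_id, Polynomial.map_mul, map_C, hρ]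

lemma psi_act {ρ : SeparableClosure K} {dd : K} (hρ : ρ ^ ℓ = algebraMap K _ dd)
    (hdd : dd ≠ 0) (h0 : ρ ≠ 0) (g : Gal K) (x : J ℓ (C dd * F) (SeparableClosure K)) :
    pm (RingHom.id _) ρ (ok_psi F hρ) (aN ℓ (C dd * F) g x) =
      aT F hρ hdd h0 g (pm (RingHom.id _) ρ (ok_psi F hρ) x) := by
  change pm _ ρ _ (mapJ ℓ (C dd * F) g.toAlgHom x) = pm _ _ _ (pm _ ρ _ x)
  rw [mapJ_eq, pm_pm, pm_pm]
  refine pm_congr _ _ (fun x => rfl) ?_ x
  rw [RingHom.id_apply, one_mul]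
  change ρ = g ρ * (ρ / g ρ)
  rw [mul_div_cancel₀]
  exact (_root_.map_ne_zero _).2 h0

end twist

section sum
variable {K : Type} [Field K] {ℓ : ℕ} (hℓ : ℓ.Prime) (hK : (ℓ : K) ≠ 0) {ζ : K}
  (hζ : IsPrimitiveRoot ζ ℓ) {F : K[X]} (hs : F.Splits) (hsep : F.Separable)
  (hn : ¬ ℓ ∣ F.natDegree)

/-- multiplication by a root of unity -/
lemma ok_one {ω : SeparableClosure K} (hω : ω ^ ℓ = 1) :
    Ok ℓ (F.map (algebraMap K (SeparableClosure K))) (F.map (algebraMap K (SeparableClosure K)))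
      (RingHom.id _) ω := ok_root hω

include hℓ hK hs hsep hn in
/-- the norm relation for all the twists at once -/
lemma prod_all {ι : Type} [Fintype ι] [DecidableEq ι] {ω : ι → SeparableClosure K} (hω : ∀ i, ω i ^ ℓ = 1)
    {i₀ : ι} (h₀ : ω i₀ ≠ 1) (hok : ∀ t : ι → Fin ℓ, (∏ i, ω i ^ (t i : ℕ)) ^ ℓ = 1)
    (x : Pic (CR ℓ (F.map (algebraMap K (SeparableClosure K))))) :
    ∏ t : ι → Fin ℓ, pm (RingHom.id _) (∏ i, ω i ^ (t i : ℕ)) (ok_one (hok t)) x = 1 := by
  classical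
  rw [← (Equiv.funSplitAt i₀ (Fin ℓ)).symm.prod_comp, Fintype.prod_prod_type_right]
  refine Finset.prod_eq_one fun t _ => ?_
  -- the rest
  have hr : (∏ i : {i // i ≠ i₀}, ω i ^ (t i : ℕ)) ^ ℓ = 1 := by
    rw [← Finset.prod_pow]
    refine Finset.prod_eq_one fun i _ => ?_
    rw [← pow_mul, mul_comm, pow_mul, hω, one_pow]
  have hprim : IsPrimitiveRoot (ω i₀) ℓ := by
    have h1 := IsPrimitiveRoot.orderOf (ω i₀)
    have h2 : orderOf (ω i₀) = ℓ := by
      rcases (Nat.dvd_prime hℓ).1 (orderOf_dvd_of_pow_eq_one (hω i₀)) with h | h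
      · exact absurd (orderOf_eq_one_iff.1 h) h₀
      · exact h
    rwa [h2] at h1
  have hjok : ∀ j : ℕ, (ω i₀ ^ j) ^ ℓ = 1 := fun j => by
    rw [← pow_mul, mul_comm, pow_mul, hω, one_pow]
  have key : ∀ a : Fin ℓ, pm (RingHom.id _)
      (∏ i, ω i ^ (((Equiv.funSplitAt i₀ (Fin ℓ)).symm (a, t)) i : ℕ))
      (ok_one (F := F) (hok ((Equiv.funSplitAt i₀ (Fin ℓ)).symm (a, t)))) x =
      pm (RingHom.id _) (ω i₀ ^ (a : ℕ)) (ok_one (hjok a))
        (pm (RingHom.id _) (∏ i : {i // i ≠ i₀}, ω i ^ (t i : ℕ)) (ok_one hr) x) := by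
    intro a
    symm
    refine pm_pm' _ _ _ (fun x => rfl) ?_ x
    rw [RingHom.id_apply, ← Finset.mul_prod_erase Finset.univ _ (Finset.mem_univ i₀), mul_comm]
    congr 1
    · rw [Equiv.funSplitAt_symm_apply, dif_pos rfl]
    · rw [Finset.prod_subtype (Finset.univ.erase i₀) (p := fun i => i ≠ i₀) (by simp)
        (fun i => ω i ^ (((Equiv.funSplitAt i₀ (Fin ℓ)).symm (a, t)) i : ℕ))]
      refine Finset.prod_congr rfl fun i _ => ?_
      rw [Equiv.funSplitAt_symm_apply, dif_neg i.2]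
  rw [Finset.prod_congr rfl fun a _ => key a]
  have hE : (ℓ : SeparableClosure K) ≠ 0 := by
    rw [← map_natCast (algebraMap K (SeparableClosure K))]
    exact (_root_.map_ne_zero _).2 hK
  have h5 := prod_pm hℓ hE hprim (F := F.map (algebraMap K (SeparableClosure K)))
    (hs.map _) (hsep.map) (by rwa [natDegree_map]) (fun j => ok_root (hjok j))
    (pm (RingHom.id _) (∏ i : {i // i ≠ i₀}, ω i ^ (t i : ℕ)) (ok_one hr) x)
  rw [← h5, Finset.prod_range]

end sum

end Pool.Agent.D0H99.EA
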