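import Pool.Agent.Y713.SE.StmT

/-!
# Maps between the Picard groups of the coordinate rings `L[x, y] / (y ^ ℓ - A(x))`
-/

set_option autoImplicit false
set_option linter.all false

open Polynomial

namespace Pool.Agent.D0H99.EA

open Pool.Agent.Y713.SE (CR)
open CommRing (Pic)

section
variable {ℓ : ℕ} {L L' L'' : Type} [Field L] [Field L'] [Field L''] {A : L[X]} {B : L'[X]}
  {D : L''[X]}

/-- `B` is obtained from `A` by `φ` up to the factor `c ^ ℓ`. -/
def Ok (ℓ : ℕ) (A : L[X]) (B : L'[X]) (φ : L →+* L') (c : L') : Prop :=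
  C (c ^ ℓ) * B = A.map φ

lemma Ok.comp {φ : L →+* L'} {c : L'} (h : Ok ℓ A B φ c) {ψ : L' →+* L''} {d : L''}
    (h' : Ok ℓ B D ψ d) : Ok ℓ A D (ψ.comp φ) (ψ c * d) := by
  unfold Ok at *
  have h1 := congrArg (Polynomial.map ψ) h
  rw [Polynomial.map_mul, map_C, ← h', Polynomial.map_map] at h1
  have h2 : ψ (c ^ ℓ) = ψ c ^ ℓ := map_pow _ _ _
  rw [← h1, mul_pow, C_mul, h2]
  ring

/-- the map `y ↦ c y` -/
noncomputable def crm (φ : L →+* L') (c : L') (h : Ok ℓ A B φ c) : CR ℓ A →+* CR ℓ B :=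
  AdjoinRoot.lift ((AdjoinRoot.of _).comp (mapRingHom φ)) (AdjoinRoot.of _ (C c) *
    AdjoinRoot.root _) (by
      have h1 := AdjoinRoot.eval₂_root (X ^ ℓ - C B : L'[X][X])
      rw [eval₂_sub, eval₂_pow, eval₂_X, eval₂_C, sub_eq_zero] at h1
      rw [eval₂_sub, eval₂_pow, eval₂_X, eval₂_C, mul_pow, h1, RingHom.comp_apply,
        coe_mapRingHom, ← h, map_mul, ← map_pow, ← map_pow, sub_self])

lemma crm_of (φ : L →+* L') (c : L') (h : Ok ℓ A B φ c) (a : L[X]) :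
    crm φ c h (AdjoinRoot.of _ a) = AdjoinRoot.of _ (a.map φ) := AdjoinRoot.lift_of _

lemma crm_root (φ : L →+* L') (c : L') (h : Ok ℓ A B φ c) :
    crm φ c h (AdjoinRoot.root _) = AdjoinRoot.of _ (C c) * AdjoinRoot.root _ :=
  AdjoinRoot.lift_root _

lemma cr_ext {R : Type} [CommRing R] {f g : CR ℓ A →+* R}
    (h1 : ∀ a : L[X], f (AdjoinRoot.of _ a) = g (AdjoinRoot.of _ a))
    (h2 : f (AdjoinRoot.root _) = g (AdjoinRoot.root _)) : f = g := by
  apply Ideal.Quotient.ringHom_ext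
  apply Polynomial.ringHom_ext
  · exact h1
  · exact h2

lemma crm_comp {φ : L →+* L'} {c : L'} (h : Ok ℓ A B φ c) {ψ : L' →+* L''} {d : L''}
    (h' : Ok ℓ B D ψ d) : (crm ψ d h').comp (crm φ c h) = crm (ψ.comp φ) (ψ c * d) (h.comp h') := by
  apply cr_ext
  · intro a
    rw [RingHom.comp_apply, crm_of, crm_of, crm_of, Polynomial.map_map]
  · rw [RingHom.comp_apply, crm_root, crm_root, map_mul, crm_of, crm_root, map_C, C_mul, map_mul]
    ring

lemma crm_congr {φ φ' : L →+* L'} {c c' : L'} (h : Ok ℓ A B φ c) (h' : Ok ℓ A B φ' c')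
    (e : φ = φ') (e' : c = c') : crm φ c h = crm φ' c' h' := by
  subst e e'
  rfl

/-- the map on the Picard groups -/
noncomputable def pm (φ : L →+* L') (c : L') (h : Ok ℓ A B φ c) : Pic (CR ℓ A) →* Pic (CR ℓ B) :=
  CommRing.Pic.mapRingHom (crm φ c h)

lemma pm_pm {φ : L →+* L'} {c : L'} (h : Ok ℓ A B φ c) {ψ : L' →+* L''} {d : L''}
    (h' : Ok ℓ B D ψ d) (x : Pic (CR ℓ A)) :
    pm ψ d h' (pm φ c h x) = pm (ψ.comp φ) (ψ c * d) (h.comp h') x := by
  unfold pm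
  rw [CommRing.Pic.mapRingHom_mapRingHom, crm_comp]

lemma pm_congr {φ φ' : L →+* L'} {c c' : L'} (h : Ok ℓ A B φ c) (h' : Ok ℓ A B φ' c')
    (e : ∀ x, φ x = φ' x) (e' : c = c') (x : Pic (CR ℓ A)) : pm φ c h x = pm φ' c' h' x := by
  unfold pm
  rw [crm_congr h h' (RingHom.ext e) e']

/-- composition, with the result given -/
lemma pm_pm' {φ : L →+* L'} {c : L'} (h : Ok ℓ A B φ c) {ψ : L' →+* L''} {d : L''}
    (h' : Ok ℓ B D ψ d) {θ : L →+* L''} {e : L''} (hθ : Ok ℓ A D θ e)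
    (e1 : ∀ x, ψ (φ x) = θ x) (e2 : ψ c * d = e) (x : Pic (CR ℓ A)) :
    pm ψ d h' (pm φ c h x) = pm θ e hθ x := by
  rw [pm_pm]
  exact pm_congr _ _ e1 e2 x

lemma pm_id {φ : L →+* L} {c : L} (h : Ok ℓ A A φ c) (e : ∀ x, φ x = x) (e' : c = 1)
    (x : Pic (CR ℓ A)) : pm φ c h x = x := by
  have : crm φ c h = RingHom.id _ := by
    apply cr_ext
    · intro a
      have e2 : φ = RingHom.id L := RingHom.ext e
      subst e2
      rw [crm_of, Polynomial.map_id]
      rfl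
    · rw [crm_root, e', C_1, map_one, one_mul]
      rfl
  unfold pm
  rw [this, CommRing.Pic.mapRingHom_id_apply]

end

section
variable {ℓ : ℕ} {K L L' : Type} [Field K] [Field L] [Algebra K L] [Field L'] [Algebra K L']

lemma ok_map (F : K[X]) (φ : L →ₐ[K] L') :
    Ok ℓ (F.map (algebraMap K L)) (F.map (algebraMap K L')) (φ : L →+* L') 1 := by
  unfold Ok
  rw [one_pow, C_1, one_mul, Polynomial.map_map, φ.comp_algebraMap]

/-- the map of the statement -/
lemma mapJ_eq (F : K[X]) (φ : L →ₐ[K] L') (x : Pic (CR ℓ (F.map (algebraMap K L)))) :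
    Pool.Agent.Y713.Jac.mapJ ℓ F φ x = pm (φ : L →+* L') 1 (ok_map F φ) x := by
  unfold Pool.Agent.Y713.Jac.mapJ pm
  congr 2
  apply cr_ext
  · intro a
    rw [crm_of]
    unfold Pool.Agent.Y713.Jac.coordMap
    exact AdjoinRoot.map_of (mapRingHom φ.toRingHom) _ _ _ a
  · rw [crm_root, C_1, map_one, one_mul]
    unfold Pool.Agent.Y713.Jac.coordMap
    exact AdjoinRoot.map_root _ _ _ _

end

end Pool.Agent.D0H99.EA
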