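import Pool.Agent.D0H99.EA.Map

/-!
# The norm relation `1 + s + ... + s ^ (ℓ - 1) = 0` on the Picard group
-/

set_option autoImplicit false
set_option linter.all false

open Polynomial

namespace Pool.Agent.D0H99.EA

open Pool.Agent.Y713.SE
open CommRing (Pic)

section
variable {ℓ n : ℕ} {E : Type} [Field E] (D : Dat ℓ n E)

lemma ok_root {A : E[X]} {c : E} (hc : c ^ ℓ = 1) : Ok ℓ A A (RingHom.id E) c := by
  unfold Ok
  rw [hc, C_1, one_mul, Polynomial.map_id]

lemma s_eq (j : ℕ) : (D.s j : D.A →+* D.A) =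
    crm (RingHom.id E) (D.ζ ^ j) (ok_root (D.ζpow j)) := by
  apply cr_ext
  · intro a
    rw [crm_of, Polynomial.map_id]
    exact (D.s j).commutes a
  · rw [crm_root]
    exact D.s_y j

lemma pc_sC (c : ClassGroup D.A) : pc (D.sC c) = pm (RingHom.id E) D.ζ
    (ok_root D.hζ.pow_eq_one) (pc c) := by
  refine (pc_nat (D.s 1 : D.A →+* D.A) (D.s 1).injective c).trans ?_
  unfold pm
  congr 2
  rw [s_eq]
  exact crm_congr _ _ rfl (pow_one _)

lemma pc_sC_iter (j : ℕ) (c : ClassGroup D.A) : pc ((D.sC)^[j] c) = pm (RingHom.id E) (D.ζ ^ j)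
    (ok_root (D.ζpow j)) (pc c) := by
  induction j with
  | zero =>
    rw [pm_id _ (fun x => rfl) (pow_zero _)]
    rfl
  | succ j ih =>
    rw [Function.iterate_succ_apply', pc_sC, ih]
    refine pm_pm' _ _ _ (fun x => rfl) ?_ _
    rw [RingHom.id_apply, pow_succ]

/-- the norm relation -/
theorem prod_D (x : Pic D.A) : ∏ j ∈ Finset.range ℓ, pm (RingHom.id E) (D.ζ ^ j)
    (ok_root (D.ζpow j)) x = 1 := by
  obtain ⟨c, rfl⟩ := (pc_bij (A := D.A)).2 x
  have h := congrArg pc (D.prod_sC c)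
  rw [map_prod, map_one] at h
  rw [← h]
  exact Finset.prod_congr rfl fun j _ => (pc_sC_iter D j c).symm

end

section
variable {ℓ : ℕ} {E : Type} [Field E]

/-- a polynomial with simple rational roots and degree prime to `ℓ` -/
theorem exists_dat (hℓ : ℓ.Prime) (hE : (ℓ : E) ≠ 0) {ζ : E} (hζ : IsPrimitiveRoot ζ ℓ)
    {F : E[X]} (hs : F.Splits) (hsep : F.Separable) (hn : ¬ ℓ ∣ F.natDegree) :
    ∃ D : Dat ℓ F.natDegree E, D.f = F ∧ D.ζ = ζ := by
  classical
  have hnd : F.roots.Nodup := nodup_roots hsep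
  have hF0 : F ≠ 0 := hsep.ne_zero
  have hcard : F.roots.toFinset.card = F.natDegree := by
    rw [Multiset.toFinset_card_of_nodup hnd, ← hs.natDegree_eq_card_roots]
  let eqv := F.roots.toFinset.equivFinOfCardEq hcard
  let e : Fin F.natDegree → E := fun i => (eqv.symm i : E)
  have he : Function.Injective e := Subtype.val_injective.comp eqv.symm.injective
  have hlc : F.leadingCoeff ≠ 0 := leadingCoeff_ne_zero.2 hF0
  have hfac : F = C F.leadingCoeff * ∏ i, (X - C (e i)) := by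
    conv_lhs => rw [hs.eq_prod_roots]
    congr 1
    have h3 : (F.roots.map fun a => X - C a).prod = ∏ a ∈ F.roots.toFinset, (X - C a) := by
      rw [Finset.prod_multiset_map_count]
      refine Finset.prod_congr rfl fun a ha => ?_
      rw [Multiset.count_eq_one_of_mem hnd (Multiset.mem_toFinset.1 ha), pow_one]
    rw [h3, ← Finset.prod_coe_sort]
    exact (Equiv.prod_comp eqv.symm (fun a : F.roots.toFinset => (X - C (a : E)))).symm
  exact ⟨⟨hℓ, hE, ζ, hζ, F.leadingCoeff, hlc, e, he, hn⟩, hfac.symm, rfl⟩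

/-- **The norm relation.** -/
theorem prod_pm (hℓ : ℓ.Prime) (hE : (ℓ : E) ≠ 0) {ζ : E} (hζ : IsPrimitiveRoot ζ ℓ)
    {F : E[X]} (hs : F.Splits) (hsep : F.Separable) (hn : ¬ ℓ ∣ F.natDegree)
    (hok : ∀ j : ℕ, Ok ℓ F F (RingHom.id E) (ζ ^ j)) (x : Pic (CR ℓ F)) :
    ∏ j ∈ Finset.range ℓ, pm (RingHom.id E) (ζ ^ j) (hok j) x = 1 := by
  obtain ⟨D, hf, hz⟩ := exists_dat hℓ hE hζ hs hsep hn
  have key : ∀ (m : ℕ) (D : Dat ℓ m E) (F : E[X]) (hf : D.f = F) (hz : D.ζ = ζ)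
      (hok : ∀ j : ℕ, Ok ℓ F F (RingHom.id E) (ζ ^ j)) (x : Pic (CR ℓ F)),
      ∏ j ∈ Finset.range ℓ, pm (RingHom.id E) (ζ ^ j) (hok j) x = 1 := by
    intro m D F hf hz hok x
    subst hf
    rw [← prod_D D x]
    refine Finset.prod_congr rfl fun j _ => pm_congr _ _ (fun _ => rfl) ?_ x
    rw [hz]
  exact key _ D F hf hz hok x

end

end Pool.Agent.D0H99.EA
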