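import Mathlib

/-!
# The place defined by an embedding into a separable closure of a completion
-/

set_option autoImplicit false
set_option linter.all false

namespace Pool.Agent.D0H99.EA

open IsDedekindDomain

section abs

variable {L R' Ω : Type} [Field L] [CommRing R'] [IsDedekindDomain R'] [Algebra R' L]
  [IsFractionRing R' L] [NormedField Ω] [IsUltrametricDist Ω] (j : L →+* Ω)
  (hint : ∀ x : R', ‖j (algebraMap R' L x)‖ ≤ 1)
  (hlt : ∃ x : R', x ≠ 0 ∧ ‖j (algebraMap R' L x)‖ < 1)

/-- the prime ideal -/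
noncomputable def pid : Ideal R' where
  carrier := {x | ‖j (algebraMap R' L x)‖ < 1}
  zero_mem' := by
    change ‖j (algebraMap R' L 0)‖ < 1
    rw [map_zero, map_zero, norm_zero]
    exact one_pos
  add_mem' := by
    intro a b ha hb
    change ‖j (algebraMap R' L (a + b))‖ < 1
    rw [map_add, map_add]
    exact (IsUltrametricDist.norm_add_le_max _ _).trans_lt (max_lt ha hb)
  smul_mem' := by
    intro a b hb
    change ‖j (algebraMap R' L (a * b))‖ < 1
    rw [map_mul, map_mul, norm_mul]
    exact mul_lt_one_of_nonneg_of_lt_one_right (hint a) (norm_nonneg _) hb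

lemma mem_pid (x : R') : x ∈ pid j hint ↔ ‖j (algebraMap R' L x)‖ < 1 := Iff.rfl

instance pid_prime : (pid j hint).IsPrime := by
  refine ⟨?_, ?_⟩
  · rw [Ideal.ne_top_iff_one, mem_pid, map_one, map_one, norm_one]
    exact lt_irrefl _
  · intro x y hxy
    rw [mem_pid, map_mul, map_mul, norm_mul] at hxy
    by_contra h
    rw [not_or, mem_pid, mem_pid, not_lt, not_lt] at h
    have : 1 ≤ ‖j (algebraMap R' L x)‖ * ‖j (algebraMap R' L y)‖ :=
      one_le_mul_of_one_le_of_one_le h.1 h.2
    linarith

include hlt in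
lemma pid_ne_bot : pid j hint ≠ ⊥ := by
  intro h
  obtain ⟨x, hx0, hx⟩ := hlt
  have h1 : x ∈ pid j hint := hx
  rw [h, Ideal.mem_bot] at h1
  exact hx0 h1

/-- the place -/
noncomputable def pls : HeightOneSpectrum R' := ⟨pid j hint, inferInstance, pid_ne_bot j hint hlt⟩

lemma norm_le_one_of_val {x : L} (hx : (pls j hint hlt).valuation L x ≤ 1) : ‖j x‖ ≤ 1 := by
  obtain ⟨n, d, h⟩ := (pls j hint hlt).exists_primeCompl_mul_eq_of_integer x hx
  have hd : ‖j (algebraMap R' L d)‖ = 1 := by
    refine le_antisymm (hint _) ?_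
    have : (d : R') ∉ pid j hint := d.2
    rw [mem_pid, not_lt] at this
    exact this
  have h1 := congrArg (fun z => ‖j z‖) h
  simp only [map_mul, norm_mul] at h1
  rw [hd, mul_one] at h1
  rw [h1]
  exact hint n

lemma exists_val_lt (ε : ℝ) (hε : 0 < ε) : ∃ π : L, π ≠ 0 ∧
    ∀ x : L, (pls j hint hlt).valuation L x < (pls j hint hlt).valuation L π → ‖j x‖ < ε := by
  obtain ⟨a, ha, ha0⟩ := (Submodule.ne_bot_iff _).1 (pid_ne_bot j hint hlt)
  rw [mem_pid] at ha
  obtain ⟨n, hn⟩ := exists_pow_lt_of_lt_one hε ha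
  have ha1 : algebraMap R' L a ≠ 0 := by
    intro h
    exact ha0 ((FaithfulSMul.algebraMap_injective R' L) (by rw [h, map_zero]))
  refine ⟨(algebraMap R' L a) ^ n, pow_ne_zero _ ha1, fun x hx => ?_⟩
  have h1 : ‖j (x / (algebraMap R' L a) ^ n)‖ ≤ 1 := by
    apply norm_le_one_of_val j hint hlt
    rw [map_div₀]
    exact (div_le_one₀ (zero_lt_iff.2 ((Valuation.ne_zero_iff _).2 (pow_ne_zero _ ha1)))).2 hx.le
  rw [map_div₀, norm_div, map_pow, norm_pow, div_le_one] at h1
  · exact h1.trans_lt hn
  · have : 0 < ‖j (algebraMap R' L a)‖ := norm_pos_iff.2 ((map_ne_zero j).2 ha1)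
    positivity

variable (M : Subfield Ω) (hM : ∀ x, j x ∈ M) [CompleteSpace M]

/-- the map to the local field -/
noncomputable def jl : WithVal ((pls j hint hlt).valuation L) →+* M :=
  (j.codRestrict M hM).comp (WithVal.equiv ((pls j hint hlt).valuation L)).toRingHom

lemma jl_coe (x : WithVal ((pls j hint hlt).valuation L)) :
    ((jl j hint hlt M hM x : M) : Ω) = j (WithVal.equiv ((pls j hint hlt).valuation L) x) := rfl

lemma jl_cont : Continuous (jl j hint hlt M hM) := by
  apply continuous_of_continuousAt_zero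
  unfold ContinuousAt
  rw [map_zero, Metric.tendsto_nhds]
  intro ε hε
  obtain ⟨π, hπ0, hπ⟩ := exists_val_lt j hint hlt ε hε
  rw [Filter.Eventually, Valued.mem_nhds_zero]
  have hv : (Valued.v : Valuation (WithVal ((pls j hint hlt).valuation L)) _).restrict
      ((WithVal.equiv ((pls j hint hlt).valuation L)).symm π) ≠ 0 := by
    rw [Ne, Valuation.restrict_eq_zero_iff]
    exact (Valuation.ne_zero_iff _).2 ((map_ne_zero_iff _ (RingEquiv.injective _)).2 hπ0)
  refine ⟨Units.mk0 _ hv, fun x hx => ?_⟩
  have hx' : (Valued.v : Valuation (WithVal ((pls j hint hlt).valuation L)) _).restrict x <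
    (Valued.v : Valuation (WithVal ((pls j hint hlt).valuation L)) _).restrict
      ((WithVal.equiv ((pls j hint hlt).valuation L)).symm π) := hx
  rw [Valuation.restrict_lt_iff] at hx'
  change dist (jl j hint hlt M hM x) 0 < ε
  rw [dist_zero_right]
  exact hπ _ hx'

/-- the map from the completion -/
noncomputable def jc : (pls j hint hlt).adicCompletion L →+* M :=
  (UniformSpace.Completion.extensionHom (jl j hint hlt M hM) (jl_cont j hint hlt M hM)).comp
    (HeightOneSpectrum.adicCompletion.equiv L (pls j hint hlt)).toRingHom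

lemma jc_coe (x : L) : ((jc j hint hlt M hM (algebraMap L _ x) : M) : Ω) = j x := by
  change ((UniformSpace.Completion.extensionHom (jl j hint hlt M hM) (jl_cont j hint hlt M hM)
    ((WithVal.equiv ((pls j hint hlt).valuation L)).symm x :
      ((pls j hint hlt).valuation L).Completion) : M) : Ω) = j x
  rw [UniformSpace.Completion.extensionHom_coe]
  rfl

include hint hlt hM in
/-- the place and the embedding of the completion -/
theorem place_abs : ∃ (w : HeightOneSpectrum R') (β : w.adicCompletion L →+* Ω),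
    (∀ x : L, β (algebraMap L _ x) = j x) ∧ ∀ y, β y ∈ M :=
  ⟨pls j hint hlt, M.subtype.comp (jc j hint hlt M hM), jc_coe j hint hlt M hM,
    fun y => (jc j hint hlt M hM y).2⟩

end abs

section norm

open Polynomial

/-- integral elements are of norm at most one -/
lemma norm_le_of_integral {Ω : Type} [NormedField Ω] [IsUltrametricDist Ω] {R R' : Type}
    [CommRing R] [CommRing R'] [Algebra R R'] (f : R' →+* Ω)
    (hf : ∀ r : R, ‖f (algebraMap R R' r)‖ ≤ 1) {x : R'} (hx : IsIntegral R x) : ‖f x‖ ≤ 1 := by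
  let V : Valuation Ω NNReal := NormedField.valuation
  obtain ⟨p, hp, hp0⟩ := hx
  have hmem : ∀ r : R, (f.comp (algebraMap R R')) r ∈ V.integer := fun r => hf r
  let g : R →+* V.integer := (f.comp (algebraMap R R')).codRestrict V.integer hmem
  have h1 : IsIntegral V.integer (f x) := by
    refine ⟨p.map g, hp.map g, ?_⟩
    rw [eval₂_map]
    have h2 : (algebraMap V.integer Ω).comp g = f.comp (algebraMap R R') := by
      ext r
      rfl
    rw [h2, ← hom_eval₂, hp0, map_zero]
  have h3 := (Valuation.integer.integers V).mem_of_integral h1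
  exact h3

theorem place_norm {E Ω : Type} [NontriviallyNormedField E] [IsUltrametricDist E]
    [CompleteSpace E] [Field Ω] [Algebra E Ω] [Algebra.IsAlgebraic E Ω] {K L R R' : Type} [Field K]
    [Field L] [Algebra K L] [FiniteDimensional K L] [CommRing R] [CommRing R'] [IsDedekindDomain R']
    [Algebra R' L] [IsFractionRing R' L] [Algebra R K] [Algebra R R'] [Algebra R L]
    [IsScalarTower R K L] [IsScalarTower R R' L] [Algebra.IsIntegral R R'] [Algebra K E]
    (hR : ∀ r : R, ‖algebraMap K E (algebraMap R K r)‖ ≤ 1)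
    (hlt : ∃ r : R, algebraMap R K r ≠ 0 ∧ ‖algebraMap K E (algebraMap R K r)‖ < 1)
    (j : L →+* Ω) (hj : ∀ x : K, j (algebraMap K L x) = algebraMap E Ω (algebraMap K E x)) :
    ∃ (w : HeightOneSpectrum R') (β : w.adicCompletion L →+* Ω),
      (∀ x : L, β (algebraMap L _ x) = j x) ∧
      ∀ τ : Ω ≃ₐ[E] Ω, (∀ x : L, τ (j x) = j x) → ∀ y, τ (β y) = β y := by
  letI nf : NormedField Ω := spectralNorm.normedField E Ω
  haveI iu : IsUltrametricDist Ω :=
    IsUltrametricDist.isUltrametricDist_of_isNonarchimedean_norm isNonarchimedean_spectralNorm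
  have hn : ∀ x : E, ‖algebraMap E Ω x‖ = ‖x‖ := fun x => spectralNorm_extends x
  have hjR : ∀ r : R, ‖j (algebraMap R' L (algebraMap R R' r))‖ =
      ‖algebraMap K E (algebraMap R K r)‖ := by
    intro r
    rw [← IsScalarTower.algebraMap_apply R R' L, IsScalarTower.algebraMap_apply R K L, hj, hn]
  have hint : ∀ x : R', ‖j (algebraMap R' L x)‖ ≤ 1 := by
    intro x
    refine norm_le_of_integral (R := R) (j.comp (algebraMap R' L)) ?_
      (Algebra.IsIntegral.isIntegral x)
    intro r
    exact (hjR r).trans_le (hR r)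
  have hlt' : ∃ x : R', x ≠ 0 ∧ ‖j (algebraMap R' L x)‖ < 1 := by
    obtain ⟨r, hr0, hr⟩ := hlt
    refine ⟨algebraMap R R' r, ?_, (hjR r).trans_lt hr⟩
    intro h0
    apply hr0
    have h1 : algebraMap K L (algebraMap R K r) = 0 := by
      rw [← IsScalarTower.algebraMap_apply R K L, IsScalarTower.algebraMap_apply R R' L, h0,
        map_zero]
    exact (map_eq_zero_iff _ (algebraMap K L).injective).1 h1
  let M : IntermediateField E Ω :=
    IntermediateField.adjoin E (Set.range fun i => j (Module.finBasis K L i))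
  haveI : FiniteDimensional E M :=
    IntermediateField.finiteDimensional_adjoin fun x _ => Algebra.IsIntegral.isIntegral x
  have hM : ∀ x : L, j x ∈ M := by
    intro x
    rw [← (Module.finBasis K L).sum_repr x, map_sum]
    refine sum_mem fun i _ => ?_
    rw [Algebra.smul_def, map_mul, hj]
    exact mul_mem (IntermediateField.algebraMap_mem _ _)
      (IntermediateField.subset_adjoin _ _ ⟨i, rfl⟩)
  letI ns : NormedSpace E M :=
    { norm_smul_le := fun a b => by
        change ‖((a • b : M) : Ω)‖ ≤ ‖a‖ * ‖(b : Ω)‖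
        rw [IntermediateField.coe_smul, Algebra.smul_def, norm_mul, hn] }
  haveI cM : CompleteSpace M := FiniteDimensional.complete E M
  haveI cM' : CompleteSpace M.toSubfield := cM
  obtain ⟨w, β, h1, h2⟩ := place_abs j hint hlt' M.toSubfield hM
  refine ⟨w, β, h1, fun τ hτ y => ?_⟩
  have hy : β y ∈ M := h2 y
  generalize β y = z at hy
  induction hy using IntermediateField.adjoin_induction with
  | mem z hz =>
    obtain ⟨i, rfl⟩ := hz
    exact hτ _
  | algebraMap z => exact τ.commutes z
  | add y z _ _ hy hz => rw [map_add, hy, hz]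
  | mul y z _ _ hy hz => rw [map_mul, hy, hz]
  | inv y _ hy => rw [map_inv₀, hy]

end norm

section adic

open WithZero

/-- The map of the value group to the real numbers. -/
noncomputable def hm : WithZero (Multiplicative ℤ) →*₀ NNReal :=
  WithZeroMulInt.toNNReal (e := 2) two_ne_zero

theorem hm_mono : StrictMono hm := WithZeroMulInt.toNNReal_strictMono (e := 2) one_lt_two

/-- The rank one structure. -/
@[instance_reducible]
noncomputable def rk (E : Type) [Field E] [Valued E (WithZero (Multiplicative ℤ))]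
    (h : ∃ x : E, x ≠ 0 ∧ (Valued.v (R := E) (Γ₀ := WithZero (Multiplicative ℤ))) x ≠ 1) :
    Valuation.RankOne (Valued.v (R := E) (Γ₀ := WithZero (Multiplicative ℤ))) where
  hom' := hm.comp MonoidWithZeroHom.ValueGroup₀.embedding
  strictMono' := hm_mono.comp MonoidWithZeroHom.ValueGroup₀.embedding_strictMono
  exists_val_nontrivial := by
    obtain ⟨x, h0, h1⟩ := h
    exact ⟨x, (Valuation.ne_zero_iff _).2 h0, h1⟩

/-- **The place defined by an embedding.** -/
theorem place {K L R R' : Type} [Field K] [Field L] [Algebra K L] [FiniteDimensional K L]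
    [CommRing R] [IsDedekindDomain R] [CommRing R'] [IsDedekindDomain R'] [Algebra R' L]
    [IsFractionRing R' L] [Algebra R K] [IsFractionRing R K] [Algebra R R'] [Algebra R L]
    [IsScalarTower R K L] [IsScalarTower R R' L] [Algebra.IsIntegral R R']
    (v : HeightOneSpectrum R) {Ω : Type} [Field Ω] [Algebra (v.adicCompletion K) Ω]
    [Algebra.IsAlgebraic (v.adicCompletion K) Ω] (j : L →+* Ω)
    (hj : ∀ x : K, j (algebraMap K L x) =
      algebraMap (v.adicCompletion K) Ω (algebraMap K (v.adicCompletion K) x)) :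
    ∃ (w : HeightOneSpectrum R') (β : w.adicCompletion L →+* Ω),
      (∀ x : L, β (algebraMap L _ x) = j x) ∧
      ∀ τ : Ω ≃ₐ[v.adicCompletion K] Ω, (∀ x : L, τ (j x) = j x) → ∀ y, τ (β y) = β y := by
  have hval : ∀ x : K, Valued.v (Γ₀ := WithZero (Multiplicative ℤ))
      (algebraMap K (v.adicCompletion K) x) = v.valuation K x := fun x =>
    HeightOneSpectrum.valuedAdicCompletion_eq_valuation' v x
  obtain ⟨π, hπ⟩ := v.valuation_exists_uniformizer K
  have hnt : ∃ x : v.adicCompletion K, x ≠ 0 ∧
      (Valued.v (R := v.adicCompletion K) (Γ₀ := WithZero (Multiplicative ℤ))) x ≠ 1 := by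
    refine ⟨algebraMap K _ π, ?_, ?_⟩
    · intro h
      have := hval π
      rw [h, map_zero, hπ] at this
      exact exp_ne_zero this.symm
    · rw [hval π, hπ]
      intro h
      rw [← exp_zero, exp_inj] at h
      omega
  letI rk0 : Valuation.RankOne (Valued.v (R := v.adicCompletion K)
    (Γ₀ := WithZero (Multiplicative ℤ))) := rk _ hnt
  letI nf : NontriviallyNormedField (v.adicCompletion K) :=
    Valued.toNontriviallyNormedField (L := v.adicCompletion K) (Γ₀ := WithZero (Multiplicative ℤ))
  haveI i1 : IsUltrametricDist (v.adicCompletion K) := by infer_instance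
  haveI i2 : CompleteSpace (v.adicCompletion K) := by infer_instance
  refine place_norm (E := v.adicCompletion K) (R := R) (K := K) (R' := R') ?_ ?_ j hj
  · intro r
    rw [Valued.toNormedField.norm_le_one_iff, hval]
    exact v.valuation_le_one r
  · obtain ⟨r, hr, hr0⟩ := (Submodule.ne_bot_iff _).1 v.ne_bot
    refine ⟨r, ?_, ?_⟩
    · rw [Ne, map_eq_zero_iff _ (IsFractionRing.injective R K)]
      exact hr0
    · rw [Valued.toNormedField.norm_lt_one_iff, hval]
      exact (v.valuation_lt_one_iff_mem r).2 hr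

end adic

end Pool.Agent.D0H99.EA
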