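import Pool.Agent.D0H99.EA.Brd
import Pool.Agent.D0H99.EA.Plc

/-!
# The corestriction maps to the cohomology of the twists
-/

set_option autoImplicit false
set_option linter.all false

open Polynomial

namespace Pool.Agent.D0H99.EA

open Pool.Agent.Y713.SE (CR)
open Pool.Agent.Y713.Jac (J mapJ Gal Cochain IsCocycle IsCoboundary IsTrivialOver)
open CommRing (Pic)

section theta

variable {K L : Type} [Field K] [Field L] [Algebra K L]
  (e : SeparableClosure L ≃+* SeparableClosure K)

/-- the subgroup -/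
def HH : Subgroup (Gal K) where
  carrier := {g | Fx e g}
  mul_mem' := by
    intro g g' h h' x
    change g (g' _) = _
    rw [h' x, h x]
  one_mem' := fun x => rfl
  inv_mem' := by
    intro g h x
    change g.symm _ = _
    rw [AlgEquiv.symm_apply_eq]
    exact (h x).symm

lemma mem_HH' (g : Gal K) : g ∈ HH e ↔ Fx e g := Iff.rfl

variable (he : ∀ x : K, e (algebraMap L (SeparableClosure L) (algebraMap K L x)) =
    algebraMap K (SeparableClosure K) x)

/-- the images of the elements of `L` -/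
noncomputable def rh (e : SeparableClosure L ≃+* SeparableClosure K) (x : L) :
    SeparableClosure K := e (algebraMap L (SeparableClosure L) x)

variable {ℓ : ℕ} {ι : Type} [Fintype ι] {r : ι → L} {d : ι → K}
  (hr : ∀ i, r i ^ ℓ = algebraMap K L (d i)) (hd : ∀ i, d i ≠ 0)
  (hgen : IntermediateField.adjoin K (Set.range r) = ⊤)

include he hgen in
lemma fx_iff (g : Gal K) : Fx e g ↔ ∀ i, g (rh e (r i)) = rh e (r i) := by
  constructor
  · intro h i
    exact h (r i)
  · intro h x
    have hx : x ∈ IntermediateField.adjoin K (Set.range r) := by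
      rw [hgen]; trivial
    induction hx using IntermediateField.adjoin_induction with
    | mem y hy =>
      obtain ⟨i, rfl⟩ := hy
      exact h i
    | algebraMap y => rw [he, AlgEquiv.commutes]
    | add y z _ _ hy hz => rw [map_add, map_add, map_add, hy, hz]
    | mul y z _ _ hy hz => rw [map_mul, map_mul, map_mul, hy, hz]
    | inv y _ hy => rw [map_inv₀, map_inv₀, map_inv₀, hy]

include he hr in
lemma rh_pow (i : ι) : rh e (r i) ^ ℓ = algebraMap K (SeparableClosure K) (d i) := by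
  unfold rh
  rw [← map_pow, ← map_pow, hr, he]

include he hr hd in
lemma rh_ne (hℓ : 0 < ℓ) (i : ι) : rh e (r i) ≠ 0 := by
  intro h
  have := rh_pow e he hr i
  rw [h, zero_pow hℓ.ne', eq_comm, _root_.map_eq_zero] at this
  exact hd i this

variable {ζ : K} (hζ : IsPrimitiveRoot ζ ℓ)

include he hr hd hζ in
/-- the action on the radicals -/
lemma act_rh (hℓ : 0 < ℓ) (g : Gal K) (i : ι) :
    ∃ k : ℕ, g (rh e (r i)) = algebraMap K (SeparableClosure K) (ζ ^ k) * rh e (r i) := by
  have h0 := rh_ne e he hr hd hℓ i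
  have h1 : (g (rh e (r i)) / rh e (r i)) ^ ℓ = 1 := by
    rw [div_pow, ← map_pow, rh_pow e he hr, AlgEquiv.commutes, div_self]
    exact (_root_.map_ne_zero _).2 (hd i)
  haveI : NeZero ℓ := ⟨hℓ.ne'⟩
  obtain ⟨k, -, hk⟩ := (hζ.map_of_injective
    (algebraMap K (SeparableClosure K)).injective).eq_pow_of_pow_eq_one h1
  refine ⟨k, ?_⟩
  rw [map_pow, hk, div_mul_cancel₀ _ h0]

include he hr hd hgen hζ in
lemma HH_normal (hℓ : 0 < ℓ) : (HH e).Normal := by
  refine ⟨fun h hh g => ?_⟩
  rw [mem_HH', fx_iff e he hgen]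
  intro i
  obtain ⟨k, hk⟩ := act_rh e he hr hd hζ hℓ g⁻¹ i
  change g (h (g⁻¹ (rh e (r i)))) = _
  have h1 : h (rh e (r i)) = rh e (r i) := (fx_iff e he hgen h).1 hh i
  rw [hk, map_mul, AlgEquiv.commutes, h1, ← hk]
  exact AlgEquiv.apply_symm_apply g _

include he hgen in
lemma HH_finite : Finite (Gal K ⧸ HH e) := by
  have h1 : (IntermediateField.adjoin K (Set.range fun i => rh e (r i))).fixingSubgroup ≤ HH e := by
    intro g hg
    rw [mem_HH', fx_iff e he hgen]
    rw [IntermediateField.mem_fixingSubgroup_iff] at hg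
    intro i
    exact hg _ (IntermediateField.subset_adjoin _ _ ⟨i, rfl⟩)
  haveI : FiniteDimensional K (IntermediateField.adjoin K (Set.range fun i => rh e (r i))) :=
    IntermediateField.finiteDimensional_adjoin fun x _ => Algebra.IsIntegral.isIntegral x
  apply Subgroup.quotient_finite_of_isOpen
  exact Subgroup.isOpen_mono h1 (IntermediateField.fixingSubgroup_isOpen _)

/-- the section -/
noncomputable def sec {G : Type} [Group G] (H : Subgroup G) (q : G ⧸ H) : G :=
  (open Classical in if q = ((1 : G) : G ⧸ H) then 1 else Quotient.out q)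

lemma sec_spec {G : Type} [Group G] (H : Subgroup G) (q : G ⧸ H) :
    ((sec H q : G) : G ⧸ H) = q := by
  unfold sec
  split_ifs with h
  · exact h.symm
  · exact Quotient.out_eq q

lemma sec_one {G : Type} [Group G] (H : Subgroup G) : sec H ((1 : G) : G ⧸ H) = 1 := by
  unfold sec
  rw [if_pos rfl]

variable {F : K[X]} {dd : K} {s : L} (hℓ : 0 < ℓ) (hs : s ^ ℓ = algebraMap K L dd) (hdd : dd ≠ 0)
  [Fintype (Gal K ⧸ HH e)]

variable (ℓ F) in
/-- the corestriction to the twist -/
noncomputable def Th (f : Cochain ℓ (F.map (algebraMap K L))) : Cochain ℓ (C dd * F) :=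
  cor (sec (HH e)) (aN ℓ (C dd * F)) (tr e he ℓ F hℓ hs hdd f)

lemma Th_mul {f : Cochain ℓ (F.map (algebraMap K L))} (hf : IsCocycle ℓ _ f) (σ τ : Gal K) :
    Th e he ℓ F hℓ hs hdd f (σ * τ) = Th e he ℓ F hℓ hs hdd f σ *
      mapJ ℓ (C dd * F) σ.toAlgHom (Th e he ℓ F hℓ hs hdd f τ) :=
  cor_coc (sec_spec _) (aN ℓ (C dd * F)) (fun x hx y hy => tr_coc e he hℓ hs hdd hf hx hy) σ τ

include hgen in
lemma Th_coc {f : Cochain ℓ (F.map (algebraMap K L))} (hf : IsCocycle ℓ _ f) :
    IsCocycle ℓ (C dd * F) (Th e he ℓ F hℓ hs hdd f) := by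
  classical
  obtain ⟨S, hS⟩ := coc_fin hf
  refine coc_of_fin (Th_mul e he hℓ hs hdd hf)
    (Finset.univ.biUnion fun q : Gal K ⧸ HH e =>
      (S.image fun x => sec _ q (e x)) ∪ Finset.univ.image fun i => sec _ q (rh e (r i))) ?_
  intro σ hσ
  have h1 : ∀ q : Gal K ⧸ HH e, ∀ x ∈ S, σ (sec _ q (e x)) = sec _ q (e x) := by
    intro q x hx
    apply hσ
    rw [Finset.mem_biUnion]
    exact ⟨q, Finset.mem_univ _, Finset.mem_union_left _ (Finset.mem_image_of_mem _ hx)⟩
  have h2 : ∀ q : Gal K ⧸ HH e, ∀ i, σ (sec _ q (rh e (r i))) = sec _ q (rh e (r i)) := by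
    intro q i
    apply hσ
    rw [Finset.mem_biUnion]
    exact ⟨q, Finset.mem_univ _, Finset.mem_union_right _
      (Finset.mem_image_of_mem _ (Finset.mem_univ i))⟩
  have h3 : ∀ q : Gal K ⧸ HH e, (sec _ q)⁻¹ * σ * sec _ q ∈ HH e := by
    intro q
    rw [mem_HH', fx_iff e he hgen]
    intro i
    change (sec _ q)⁻¹ (σ (sec _ q (rh e (r i)))) = rh e (r i)
    rw [h2 q i]
    exact AlgEquiv.symm_apply_apply (sec _ q) _
  have h4 : ∀ q : Gal K ⧸ HH e, σ • q = q := by
    intro q
    have h5 := h3 q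
    rw [mul_assoc, ← QuotientGroup.eq] at h5
    conv_lhs => rw [← sec_spec _ q]
    exact h5.symm.trans (sec_spec _ q)
  unfold Th
  refine cor_one_of _ _ _ fun q => ?_
  rw [h4]
  unfold tr
  rw [hS, map_one]
  intro x hx
  rw [cF_apply e (h3 q)]
  change e.symm ((sec _ q)⁻¹ (σ (sec _ q (e x)))) = x
  rw [h1 q x hx]
  have : (sec _ q)⁻¹ (sec _ q (e x)) = e x := AlgEquiv.symm_apply_apply (sec _ q) _
  rw [this, RingEquiv.symm_apply_apply]

lemma Th_cob {f : Cochain ℓ (F.map (algebraMap K L))} (hf : IsCoboundary ℓ _ f) :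
    IsCoboundary ℓ (C dd * F) (Th e he ℓ F hℓ hs hdd f) := by
  obtain ⟨P, hP⟩ := hf
  exact ⟨_, cor_cob (sec_spec _) (aN ℓ (C dd * F)) _ fun x hx => tr_cob e he hℓ hs hdd hP hx⟩

lemma Th_pow (f : Cochain ℓ (F.map (algebraMap K L))) (n : ℕ) :
    Th e he ℓ F hℓ hs hdd (fun σ => f σ ^ n) = fun σ => Th e he ℓ F hℓ hs hdd f σ ^ n := by
  funext σ
  unfold Th
  rw [tr_pow]
  exact cor_pow _ _ _ _

/-- the local condition -/
lemma Th_loc {f : Cochain ℓ (F.map (algebraMap K L))} (hf : IsCocycle ℓ _ f)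
    {R R' : Type} [CommRing R] [IsDedekindDomain R] [CommRing R'] [IsDedekindDomain R']
    [Algebra R' L] [IsFractionRing R' L] [Algebra R K] [IsFractionRing R K] [Algebra R R']
    [Algebra R L] [IsScalarTower R K L] [IsScalarTower R R' L] [Algebra.IsIntegral R R']
    [FiniteDimensional K L]
    (hl : Pool.Agent.Y713.Jac.IsLocallyTrivial ℓ (F.map (algebraMap K L)) R' f) :
    Pool.Agent.Y713.Jac.IsLocallyTrivial ℓ (C dd * F) R (Th e he ℓ F hℓ hs hdd f) := by
  intro v
  obtain ⟨ι0⟩ : Nonempty (SeparableClosure K →ₐ[K] SeparableClosure (v.adicCompletion K)) :=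
    ⟨IsSepClosed.lift⟩
  obtain ⟨R0, hR0⟩ := cor_loc (locD ℓ (C dd * F) (v.adicCompletion K)) (sec_spec (HH e))
    (f := tr e he ℓ F hℓ hs hdd f) (fun x hx y hy => tr_coc e he hℓ hs hdd hf hx hy) (by
      intro j
      obtain ⟨w, β, hβ, hfix⟩ := place (R' := R') v ((j : SeparableClosure K →+*
        SeparableClosure (v.adicCompletion K)).comp
        ((e : SeparableClosure L →+* SeparableClosure K).comp
          (algebraMap L (SeparableClosure L)))) (by
          intro x
          change j (e (algebraMap L _ (algebraMap K L x))) = _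
          rw [he, j.commutes]
          exact IsScalarTower.algebraMap_apply K (v.adicCompletion K) _ x)
      exact bridge e he hℓ hs hdd hf (hl w) j β hβ hfix) ι0
  exact ⟨ι0, R0, fun τ σ hτ => hR0 τ σ (AlgHom.ext hτ)⟩

end theta

end Pool.Agent.D0H99.EA
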