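import Pool.Agent.D0H99.EA.Scale
import Pool.Agent.D0H99.EA.Fin2

/-!
# Infinite towers
-/

set_option autoImplicit false
set_option linter.all false

open Polynomial IsDedekindDomain

namespace Pool.Agent.D0H99.EA

open Pool.Agent.Y713.Jac (ShaPrimaryTrivial ShaTateTrivial)

/-- the sequence of twisting polynomials -/
theorem exists_seq {O k : Type} [CommRing O] [IsDedekindDomain O] [Field k] [Algebra O k]
    [IsFractionRing O k] (hinf : Infinite (HeightOneSpectrum O)) {ℓ : ℕ} (hℓ : ℓ.Prime)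
    (hk : (ℓ : k) ≠ 0) {ζ : k} (hζ : IsPrimitiveRoot ζ ℓ)
    {G : (RatFunc k)[X]} (hs : G.Splits) (hsep : G.Separable) (hdeg : ¬ ℓ ∣ G.natDegree) (N : ℕ) :
    ∃ D : ℕ → k[X], Function.Injective D ∧
      (∀ j, (D j).Monic ∧ Irreducible (D j) ∧ N ≤ (D j).natDegree) ∧
      ∀ (c : k) (m : ℕ) (e : ℕ → ℕ), c ≠ 0 → (∃ j < m, ¬ ℓ ∣ e j) →
        ShaPrimaryTrivial ℓ (C (algebraMap k[X] (RatFunc k)
          (C c * ∏ j ∈ Finset.range m, D j ^ e j)) * G) k[X] := by
  classical
  obtain ⟨T0, hT0, hcrit⟩ := crit_exp (RatFunc k) hℓ hk hζ hs hsep hdeg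
  have step : ∀ T : {T : Finset k[X] // ∀ π ∈ T, Irreducible π ∧ π.Monic}, ∃ D : k[X],
      D.Monic ∧ Irreducible D ∧ N + 1 + (T : Finset k[X]).sup natDegree ≤ D.natDegree ∧
      ¬ ℓ ∣ D.natDegree ∧
      ∀ (c : k) (a : k[X] → ℕ) (z : k[X]), c ≠ 0 →
        D ∣ C c * ∏ π ∈ (T : Finset k[X]), π ^ a π - z ^ ℓ → ∀ π ∈ (T : Finset k[X]), ℓ ∣ a π :=
    fun T => Pool.Agent.Y713.SE.exists_D2 hinf hℓ hk T.1 T.2 _
  choose f hf1 hf2 hf3 hf4 hf5 using step
  let s : ℕ → {T : Finset k[X] // ∀ π ∈ T, Irreducible π ∧ π.Monic} := fun n =>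
    Nat.rec ⟨T0, hT0⟩ (fun _ T => ⟨insert (f T) T.1, fun π hπ => by
      rcases Finset.mem_insert.1 hπ with rfl | h
      · exact ⟨hf2 T, hf1 T⟩
      · exact T.2 π h⟩) n
  have hs1 : ∀ n, (s (n + 1)).1 = insert (f (s n)) (s n).1 := fun n => rfl
  have hmono : ∀ n m, n ≤ m → (s n).1 ⊆ (s m).1 := by
    intro n m hnm
    induction hnm with
    | refl => exact subset_rfl
    | step h ih => exact ih.trans (by rw [hs1]; exact Finset.subset_insert _ _)
  have hmem : ∀ n m, n < m → f (s n) ∈ (s m).1 := fun n m hnm =>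
    hmono (n + 1) m hnm (by rw [hs1]; exact Finset.mem_insert_self _ _)
  have hT0s : ∀ n, T0 ⊆ (s n).1 := fun n => hmono 0 n (Nat.zero_le n)
  have hnd : ∀ n, ∀ π ∈ (s n).1, ¬ f (s n) ∣ π := by
    intro n π hπ hd
    have h1 := natDegree_le_of_dvd hd ((s n).2 π hπ).1.ne_zero
    have h2 : π.natDegree ≤ (s n).1.sup natDegree := Finset.le_sup hπ
    have h3 := hf3 (s n)
    omega
  have hinj : Function.Injective fun n => f (s n) := by
    intro n m h
    rcases lt_trichotomy n m with h1 | h1 | h1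
    · exact absurd (dvd_of_eq h.symm) (hnd m _ (hmem n m h1))
    · exact h1
    · exact absurd (dvd_of_eq h) (hnd n _ (hmem m n h1))
  refine ⟨fun n => f (s n), hinj, fun j => ⟨hf1 _, hf2 _, ?_⟩, ?_⟩
  · have h1 := hf3 (s j)
    have h2 : N ≤ (f (s j)).natDegree := by omega
    exact h2
  -- exponents below `ℓ`
  have main : ∀ (m : ℕ) (c : k) (e : ℕ → ℕ), c ≠ 0 → (∀ j, e j < ℓ) → (∃ j < m, e j ≠ 0) →
      ShaPrimaryTrivial ℓ (C (algebraMap k[X] (RatFunc k)
          (C c * ∏ j ∈ Finset.range m, f (s j) ^ e j)) * G) k[X] := by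
    intro m
    induction m with
    | zero =>
      rintro c e - - ⟨j, hj, -⟩
      exact absurd hj (Nat.not_lt_zero j)
    | succ m ih =>
      intro c e hc he hex
      by_cases h0 : e m = 0
      · have h1 : ∃ j < m, e j ≠ 0 := by
          obtain ⟨j, hj, hj0⟩ := hex
          refine ⟨j, ?_, hj0⟩
          rcases Nat.lt_succ_iff_lt_or_eq.1 hj with h | h
          · exact h
          · exact absurd (h ▸ h0) hj0
        have h2 := ih c e hc he h1
        rwa [Finset.prod_range_succ, h0, pow_zero, mul_one]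
      · have hna : ¬ ℓ ∣ e m := Nat.not_dvd_of_pos_of_lt (Nat.pos_of_ne_zero h0) (he m)
        -- the exponents on the set
        let b : k[X] → ℕ := fun π => ∑ j ∈ Finset.range m, if f (s j) = π then e j else 0
        have hb : ∀ j ∈ Finset.range m, b (f (s j)) = e j := by
          intro j hj
          change ∑ i ∈ Finset.range m, (if f (s i) = f (s j) then e i else 0) = e j
          rw [Finset.sum_eq_single j]
          · rw [if_pos rfl]
          · intro i _ hij
            rw [if_neg]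
            exact fun h => hij (hinj h)
          · intro h
            exact absurd hj h
        have hprod : ∏ π ∈ (s m).1, π ^ b π =
            ∏ j ∈ Finset.range m, f (s j) ^ e j := by
          have hsub : (Finset.range m).image (fun j => f (s j)) ⊆ (s m).1 := by
            intro π hπ
            obtain ⟨j, hj, rfl⟩ := Finset.mem_image.1 hπ
            exact hmem j m (Finset.mem_range.1 hj)
          rw [← Finset.prod_subset hsub]
          · rw [Finset.prod_image fun i _ j _ h => hinj h]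
            exact Finset.prod_congr rfl fun j hj => by rw [hb j hj]
          · intro π _ hn
            have : b π = 0 := by
              refine Finset.sum_eq_zero fun j hj => ?_
              rw [if_neg]
              rintro rfl
              exact hn (Finset.mem_image_of_mem _ hj)
            rw [this, pow_zero]
        have key := hcrit (s m).1 (hT0s m) (s m).2 (f (s m)) (hf2 _)
          (fun c ⟨a, ha⟩ => Pool.Agent.Y713.SE.const_stable hℓ (hf2 _) (hf4 _) ⟨a, ha⟩)
          (hnd m) (hf5 (s m)) c (e m) b hc hna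
        have e1 : C c * f (s m) ^ e m * ∏ π ∈ (s m).1, π ^ b π =
            C c * ∏ j ∈ Finset.range (m + 1), f (s j) ^ e j := by
          rw [hprod, Finset.prod_range_succ]
          ring
        rwa [e1] at key
  intro c m e hc hex
  have hred := main m c (fun j => e j % ℓ) hc (fun j => Nat.mod_lt _ hℓ.pos) (by
    obtain ⟨j, hj, hj0⟩ := hex
    exact ⟨j, hj, fun h => hj0 (Nat.dvd_of_mod_eq_zero h)⟩)
  let z : k[X] := ∏ j ∈ Finset.range m, f (s j) ^ (e j / ℓ)
  have hz : algebraMap k[X] (RatFunc k) z ≠ 0 := by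
    rw [Ne, map_eq_zero_iff _ (IsFractionRing.injective k[X] (RatFunc k))]
    exact Finset.prod_ne_zero_iff.2 fun j _ => pow_ne_zero _ (hf2 _).ne_zero
  have h2 := prim_scale hz hred
  have h3 : C ((algebraMap k[X] (RatFunc k) z) ^ ℓ) * (C (algebraMap k[X] (RatFunc k)
      (C c * ∏ j ∈ Finset.range m, f (s j) ^ (e j % ℓ))) * G) =
      C (algebraMap k[X] (RatFunc k) (C c * ∏ j ∈ Finset.range m, f (s j) ^ e j)) * G := by
    rw [← mul_assoc, ← C_mul, ← map_pow, ← map_mul]
    congr 3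
    have h4 : ∏ j ∈ Finset.range m, f (s j) ^ e j =
        z ^ ℓ * ∏ j ∈ Finset.range m, f (s j) ^ (e j % ℓ) := by
      rw [← Finset.prod_pow, ← Finset.prod_mul_distrib]
      refine Finset.prod_congr rfl fun j _ => ?_
      rw [← pow_mul, ← pow_add, mul_comm (e j / ℓ) ℓ, Nat.div_add_mod]
    rw [h4]
    ring
  rwa [h3] at h2

theorem main_tower {O k : Type} [CommRing O] [IsDedekindDomain O] [Field k] [Algebra O k]
    [IsFractionRing O k] (hinf : Infinite (HeightOneSpectrum O)) {ℓ : ℕ} (hℓ : ℓ.Prime)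
    (hk : (ℓ : k) ≠ 0) {ζ : k} (hζ : IsPrimitiveRoot ζ ℓ)
    {G : (RatFunc k)[X]} (hs : G.Splits) (hsep : G.Separable) (hdeg : ¬ ℓ ∣ G.natDegree) (N : ℕ) :
    ∃ D : ℕ → k[X], Function.Injective D ∧
      (∀ j, (D j).Monic ∧ Irreducible (D j) ∧ N ≤ (D j).natDegree) ∧
      ∀ (L : Type) [Field L] [Algebra (RatFunc k) L] [Algebra k[X] L]
        [IsScalarTower k[X] (RatFunc k) L] (m r : ℕ) (c : k) (a : ℕ → ℕ) (c' : Fin r → k)
        (e : Fin r → ℕ → ℕ) (u : Fin r → L) (_ : c ≠ 0) (_ : ∀ i, c' i ≠ 0)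
        (_ : ∀ i, u i ^ ℓ = algebraMap (RatFunc k) L (algebraMap k[X] (RatFunc k)
            (C (c' i) * ∏ j ∈ Finset.range m, D j ^ e i j)))
        (_ : IntermediateField.adjoin (RatFunc k) (Set.range u) = ⊤)
        (_ : ∀ t : Fin r → ℕ, ∃ j < m, ¬ ℓ ∣ a j + ∑ i, e i j * t i)
        (R : Type) [CommRing R] [IsDedekindDomain R] [Algebra R L] [IsFractionRing R L]
        [Algebra k[X] R] [IsScalarTower k[X] R L] [IsIntegralClosure R k[X] L],
        Killed ℓ r ((C (algebraMap k[X] (RatFunc k)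
          (C c * ∏ j ∈ Finset.range m, D j ^ a j)) * G).map (algebraMap (RatFunc k) L)) R := by
  classical
  obtain ⟨D, hinjD, hD, hall⟩ := exists_seq (O := O) hinf hℓ hk hζ hs hsep hdeg N
  refine ⟨D, hinjD, hD, ?_⟩
  intro L _ _ _ _ m r c a c' e u hc hc' hu hgen hind R _ _ _ _ _ _ _
  have hinj : Function.Injective ((algebraMap k[X] (RatFunc k)).comp (C : k →+* k[X])) :=
    RingHom.injective _
  have hK : ((ℓ : ℕ) : RatFunc k) ≠ 0 := by
    have h1 := (map_ne_zero_iff _ hinj).2 hk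
    rwa [map_natCast] at h1
  have hne : ∀ (c : k) (a : ℕ → ℕ), c ≠ 0 → algebraMap k[X] (RatFunc k)
      (C c * ∏ j ∈ Finset.range m, D j ^ a j) ≠ 0 := by
    intro c a hc
    rw [Ne, map_eq_zero_iff _ (IsFractionRing.injective k[X] (RatFunc k))]
    exact mul_ne_zero (C_ne_zero.2 hc) (Finset.prod_ne_zero_iff.2 fun j _ =>
      pow_ne_zero _ (hD j).2.1.ne_zero)
  let d : Fin r → RatFunc k := fun i => algebraMap k[X] (RatFunc k)
    (C (c' i) * ∏ j ∈ Finset.range m, D j ^ e i j)
  have hd : ∀ i, d i ≠ 0 := fun i => hne _ _ (hc' i)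
  obtain ⟨hfd, hse⟩ := fin_sep hℓ.pos hK (d := d) hu hd hgen
  haveI : Algebra.IsIntegral k[X] R := IsIntegralClosure.isIntegral_algebra k[X] L
  have hprim : ∀ t : Fin r → Fin ℓ, ShaPrimaryTrivial ℓ
      (C (dT d t) * (C (algebraMap k[X] (RatFunc k)
        (C c * ∏ j ∈ Finset.range m, D j ^ a j)) * G)) k[X] := by
    intro t
    have h1 := hall (c * ∏ i, c' i ^ (t i : ℕ)) m (fun j => a j + ∑ i, e i j * (t i : ℕ))
      (mul_ne_zero hc (Finset.prod_ne_zero_iff.2 fun i _ => pow_ne_zero _ (hc' i)))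
      (hind fun i => (t i : ℕ))
    have h2 : C (algebraMap k[X] (RatFunc k)
        (C (c * ∏ i, c' i ^ (t i : ℕ)) *
          ∏ j ∈ Finset.range m, D j ^ (a j + ∑ i, e i j * (t i : ℕ)))) * G =
        C (dT d t) * (C (algebraMap k[X] (RatFunc k)
        (C c * ∏ j ∈ Finset.range m, D j ^ a j)) * G) := by
      rw [← mul_assoc, ← C_mul]
      congr 2
      unfold dT
      have h6 : ∏ i, d i ^ (t i : ℕ) = algebraMap k[X] (RatFunc k)
          (∏ i, (C (c' i) * ∏ j ∈ Finset.range m, D j ^ e i j) ^ (t i : ℕ)) := by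
        rw [map_prod]
        exact Finset.prod_congr rfl fun i _ => by rw [map_pow]
      rw [h6, ← map_mul]
      congr 1
      have h3 : ∏ j ∈ Finset.range m, D j ^ (a j + ∑ i, e i j * (t i : ℕ)) =
          (∏ j ∈ Finset.range m, D j ^ a j) *
            ∏ j ∈ Finset.range m, ∏ i, D j ^ (e i j * (t i : ℕ)) := by
        rw [← Finset.prod_mul_distrib]
        refine Finset.prod_congr rfl fun j _ => ?_
        rw [Finset.prod_pow_eq_pow_sum, ← pow_add]
      have h5 : ∏ i, (C (c' i) * ∏ j ∈ Finset.range m, D j ^ e i j) ^ (t i : ℕ) =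
          C (∏ i, c' i ^ (t i : ℕ)) *
            ∏ j ∈ Finset.range m, ∏ i, D j ^ (e i j * (t i : ℕ)) := by
        rw [Finset.prod_comm, map_prod, ← Finset.prod_mul_distrib]
        refine Finset.prod_congr rfl fun i _ => ?_
        rw [mul_pow, C_pow, ← Finset.prod_pow]
        congr 1
        exact Finset.prod_congr rfl fun j _ => by rw [← pow_mul]
      rw [h3, h5, C_mul]
      ring
    rwa [h2] at h1
  have hE0 := hne c a hc
  set E : RatFunc k := algebraMap k[X] (RatFunc k) (C c * ∏ j ∈ Finset.range m, D j ^ a j)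
  have hF1 : (C E * G).Splits := (Splits.C _).mul hs
  have hF2 : (C E * G).Separable := by
    refine hsep.of_dvd ⟨C (E⁻¹), ?_⟩
    rw [mul_comm (C E), mul_assoc, ← C_mul, mul_inv_cancel₀ hE0, C_1, mul_one]
  have hF3 : ¬ ℓ ∣ (C E * G).natDegree := by rwa [natDegree_C_mul hE0]
  have hζ' : IsPrimitiveRoot (algebraMap k[X] (RatFunc k) (C ζ)) ℓ :=
    hζ.map_of_injective (f := (algebraMap k[X] (RatFunc k)).comp C) hinj
  have key := desc (R := k[X]) (R' := R) hℓ hK hζ' hu hd hgen
    hF1 hF2 hF3 (m := 0) (fun t => killed_zero (hprim t))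
  rwa [zero_add, Fintype.card_fin] at key

end Pool.Agent.D0H99.EA
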