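import Pool.Agent.D0H99.EA.Nrm
import Pool.Agent.D0H99.EA.CorM

/-!
# Transport of cocycles from `L` to `K`
-/

set_option autoImplicit false
set_option linter.all false

open Polynomial

namespace Pool.Agent.D0H99.EA

open Pool.Agent.Y713.SE (CR)
open Pool.Agent.Y713.Jac (J mapJ Gal Cochain IsCocycle IsCoboundary IsTrivialOver)
open CommRing (Pic)

section nat
variable (ℓ : ℕ) {K : Type} [Field K] (F : K[X])

variable {L L' L'' : Type} [Field L] [Algebra K L] [Field L'] [Algebra K L'] [Field L'']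
  [Algebra K L'']

lemma mapJ_mapJ (ψ : L' →ₐ[K] L'') (φ : L →ₐ[K] L') (x : J ℓ F L) :
    mapJ ℓ F ψ (mapJ ℓ F φ x) = mapJ ℓ F (ψ.comp φ) x := by
  rw [mapJ_eq, mapJ_eq, mapJ_eq]
  refine pm_pm' _ _ _ (fun x => rfl) ?_ _
  rw [map_one, one_mul]

lemma mapJ_id (φ : L →ₐ[K] L) (hφ : ∀ x, φ x = x) (x : J ℓ F L) : mapJ ℓ F φ x = x := by
  rw [mapJ_eq]
  exact pm_id _ hφ rfl x

/-- the Galois action -/
noncomputable def aN : Gal K →* Monoid.End (J ℓ F (SeparableClosure K)) where
  toFun τ := mapJ ℓ F τ.toAlgHom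
  map_one' := by
    refine MonoidHom.ext fun P => ?_
    exact mapJ_id ℓ F (1 : Gal K).toAlgHom (fun x => rfl) P
  map_mul' σ τ := by
    refine MonoidHom.ext fun P => ?_
    exact (mapJ_mapJ ℓ F σ.toAlgHom τ.toAlgHom P).symm

/-- the local Galois action -/
noncomputable def bN (E : Type) [Field E] [Algebra K E] :
    Gal E →* Monoid.End (J ℓ F (SeparableClosure E)) where
  toFun τ := mapJ ℓ F (τ.toAlgHom.restrictScalars K)
  map_one' := by
    refine MonoidHom.ext fun P => ?_
    exact mapJ_id ℓ F ((1 : Gal E).toAlgHom.restrictScalars K) (fun x => rfl) P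
  map_mul' σ τ := by
    refine MonoidHom.ext fun P => ?_
    exact (mapJ_mapJ ℓ F (σ.toAlgHom.restrictScalars K) (τ.toAlgHom.restrictScalars K) P).symm

/-- the local data -/
noncomputable def locD (E : Type) [Field E] [Algebra K E] :
    Loc (Gal K) (J ℓ F (SeparableClosure K)) (SeparableClosure K →ₐ[K] SeparableClosure E) (Gal E)
      (J ℓ F (SeparableClosure E)) where
  a := aN ℓ F
  b := bN ℓ F E
  lc τ j := (τ.toAlgHom.restrictScalars K).comp j
  rc j g := j.comp g.toAlgHom
  st j := mapJ ℓ F j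
  lc_mul _ _ _ := rfl
  lc_one _ := rfl
  rc_mul _ _ _ := rfl
  rc_one _ := rfl
  comm _ _ _ := rfl
  st_l _ _ x := (mapJ_mapJ ℓ F _ _ x).symm
  st_r _ _ x := (mapJ_mapJ ℓ F _ _ x).symm

end nat

section fin
variable {ℓ : ℕ} {K : Type} [Field K] {F : K[X]}

lemma coc_one {f : Cochain ℓ F} (hf : IsCocycle ℓ F f) : f 1 = 1 := by
  have := hf.2 1 1
  rw [one_mul, mapJ_id ℓ F (1 : Gal K).toAlgHom (fun x => rfl)] at this
  exact left_eq_mul.1 this

/-- a continuous cocycle vanishes on the automorphisms that fix a finite set -/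
lemma coc_fin {f : Cochain ℓ F} (hf : IsCocycle ℓ F f) :
    ∃ S : Finset (SeparableClosure K), ∀ τ : Gal K, (∀ x ∈ S, τ x = x) → f τ = 1 := by
  classical
  have h1 := coc_one hf
  have h2 : f ⁻¹' {1} ∈ nhds (1 : Gal K) := (hf.1.isOpen_fiber 1).mem_nhds h1
  obtain ⟨E, hE, hEs⟩ := (krullTopology_mem_nhds_one_iff K (SeparableClosure K) _).1 h2
  let b := Module.finBasis K E
  refine ⟨Finset.univ.image fun i => (b i : SeparableClosure K), fun τ hτ => ?_⟩
  apply hEs
  show τ ∈ E.fixingSubgroup
  rw [IntermediateField.mem_fixingSubgroup_iff]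
  intro x hx
  have h3 : ((∑ i, b.repr ⟨x, hx⟩ i • b i : E) : SeparableClosure K) = x :=
    congrArg (Subtype.val) (b.sum_repr ⟨x, hx⟩)
  rw [← h3]
  have h4 : ∀ i, τ (b i : SeparableClosure K) = b i := fun i =>
    hτ _ (Finset.mem_image_of_mem _ (Finset.mem_univ i))
  simp only [IntermediateField.coe_sum, IntermediateField.coe_smul, map_sum, map_smul, h4]

/-- the converse -/
lemma coc_of_fin {f : Cochain ℓ F}
    (hf : ∀ σ τ : Gal K, f (σ * τ) = f σ * mapJ ℓ F σ.toAlgHom (f τ))
    (S : Finset (SeparableClosure K)) (hS : ∀ τ : Gal K, (∀ x ∈ S, τ x = x) → f τ = 1) :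
    IsCocycle ℓ F f := by
  refine ⟨(IsLocallyConstant.iff_exists_open
    (f : Gal K → J ℓ F (SeparableClosure K))).2 ?_, hf⟩
  intro σ
  have : FiniteDimensional K (IntermediateField.adjoin K (S : Set (SeparableClosure K))) :=
    IntermediateField.finiteDimensional_adjoin fun x _ => Algebra.IsIntegral.isIntegral x
  refine ⟨(fun τ => σ⁻¹ * τ) ⁻¹'
    ((IntermediateField.adjoin K (S : Set (SeparableClosure K))).fixingSubgroup : Set (Gal K)),
    (IntermediateField.fixingSubgroup_isOpen _).preimage (continuous_const_mul _), ?_, ?_⟩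
  · show σ⁻¹ * σ ∈ (IntermediateField.adjoin K (S : Set (SeparableClosure K))).fixingSubgroup
    rw [inv_mul_cancel]
    exact one_mem _
  · intro τ hτ
    have h1 : σ⁻¹ * τ ∈ (IntermediateField.adjoin K
      (S : Set (SeparableClosure K))).fixingSubgroup := hτ
    rw [IntermediateField.mem_fixingSubgroup_iff] at h1
    have h2 := hS (σ⁻¹ * τ) fun x hx => h1 x (IntermediateField.subset_adjoin K _ hx)
    have h3 := hf σ (σ⁻¹ * τ)
    rw [mul_inv_cancel_left, h2, map_one, mul_one] at h3
    exact h3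

end fin

section transfer

variable {K L : Type} [Field K] [Field L] [Algebra K L]
  (e : SeparableClosure L ≃+* SeparableClosure K)

/-- `g` fixes the elements of `L` -/
def Fx (g : Gal K) : Prop :=
  ∀ x : L, g (e (algebraMap L (SeparableClosure L) x)) = e (algebraMap L (SeparableClosure L) x)

open Classical in
/-- the automorphism of the separable closure of `L` -/
noncomputable def cF (g : Gal K) : Gal L :=
  if h : Fx e g then
    { toFun := fun x => e.symm (g (e x))
      invFun := fun x => e.symm (g.symm (e x))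
      left_inv := fun x => by simp
      right_inv := fun x => by simp
      map_mul' := fun x y => by simp
      map_add' := fun x y => by simp
      commutes' := fun x => by
        change e.symm (g (e (algebraMap L (SeparableClosure L) x))) = _
        rw [h x, RingEquiv.symm_apply_apply] }
  else 1

lemma cF_apply {g : Gal K} (h : Fx e g) (x : SeparableClosure L) :
    cF e g x = e.symm (g (e x)) := by
  unfold cF
  rw [dif_pos h]
  rfl

lemma e_cF {g : Gal K} (h : Fx e g) (x : SeparableClosure L) :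
    e (cF e g x) = g (e x) := by
  rw [cF_apply e h, RingEquiv.apply_symm_apply]

lemma cF_mul {g g' : Gal K} (h : Fx e g) (h' : Fx e g') : cF e (g * g') = cF e g * cF e g' := by
  have h2 : Fx e (g * g') := fun x => by
    change g (g' _) = _
    rw [h' x, h x]
  refine AlgEquiv.ext fun x => ?_
  change cF e (g * g') x = cF e g (cF e g' x)
  apply e.injective
  rw [e_cF e h2, e_cF e h, e_cF e h']
  rfl

variable (he : ∀ x : K, e (algebraMap L (SeparableClosure L) (algebraMap K L x)) =
  algebraMap K (SeparableClosure K) x)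

include he in
lemma he' (x : K) : e.symm (algebraMap K (SeparableClosure K) x) =
    algebraMap L (SeparableClosure L) (algebraMap K L x) := by
  rw [← he, RingEquiv.symm_apply_apply]

/-- the automorphism of the separable closure of `K` -/
noncomputable def cQ (σ : Gal L) : Gal K where
  toFun x := e (σ (e.symm x))
  invFun x := e (σ.symm (e.symm x))
  left_inv x := by simp
  right_inv x := by simp
  map_mul' x y := by simp
  map_add' x y := by simp
  commutes' x := by
    change e (σ (e.symm (algebraMap K (SeparableClosure K) x))) = _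
    rw [he' e he, AlgEquiv.commutes, he]

lemma cQ_fx (σ : Gal L) : Fx e (cQ e he σ) := by
  intro x
  change e (σ (e.symm (e _))) = _
  rw [RingEquiv.symm_apply_apply, AlgEquiv.commutes]

lemma cF_cQ (σ : Gal L) : cF e (cQ e he σ) = σ := by
  refine AlgEquiv.ext fun x => ?_
  apply e.injective
  rw [e_cF e (cQ_fx e he σ)]
  change e (σ (e.symm (e _))) = _
  rw [RingEquiv.symm_apply_apply]

variable {ℓ : ℕ} (F : K[X])

/-- from the curve over an extension of `L` to the twisted curve over an extension of `K` -/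
lemma ok_any {L1 L2 : Type} [Field L1] [Algebra L L1] [Field L2] [Algebra K L2] {φ : L1 →+* L2}
    (hφ : ∀ x : K, φ (algebraMap L L1 (algebraMap K L x)) = algebraMap K L2 x) {dd : K} {c : L2}
    (hc : c ^ ℓ * algebraMap K L2 dd = 1) :
    Ok ℓ ((F.map (algebraMap K L)).map (algebraMap L L1)) ((C dd * F).map (algebraMap K L2))
      φ c := by
  unfold Ok
  rw [Polynomial.map_mul, map_C, ← mul_assoc, ← C_mul, hc, C_1, one_mul, Polynomial.map_map,
    Polynomial.map_map]
  congr 1
  exact (RingHom.ext hφ).symm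

variable {F} {dd : K} {s : L}

include he in
lemma hc_inv (hℓ : 0 < ℓ) (hs : s ^ ℓ = algebraMap K L dd) (hdd : dd ≠ 0) :
    (e (algebraMap L (SeparableClosure L) s))⁻¹ ^ ℓ * algebraMap K (SeparableClosure K) dd = 1 := by
  rw [inv_pow, ← map_pow, ← map_pow, hs, he, inv_mul_cancel₀]
  exact (_root_.map_ne_zero _).2 hdd

variable (ℓ F) in
/-- the transported cochain -/
noncomputable def tr (hℓ : 0 < ℓ) (hs : s ^ ℓ = algebraMap K L dd) (hdd : dd ≠ 0)
    (f : Cochain ℓ (F.map (algebraMap K L))) (g : Gal K) : J ℓ (C dd * F) (SeparableClosure K) :=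
  pm (e : SeparableClosure L →+* SeparableClosure K) (e (algebraMap L (SeparableClosure L) s))⁻¹
    (ok_any F he (hc_inv e he hℓ hs hdd)) (f (cF e g))

variable (hℓ : 0 < ℓ) (hs : s ^ ℓ = algebraMap K L dd) (hdd : dd ≠ 0)

lemma tr_act {g : Gal K} (h : Fx e g) (P : J ℓ (F.map (algebraMap K L)) (SeparableClosure L)) :
    pm (e : SeparableClosure L →+* SeparableClosure K) (e (algebraMap L (SeparableClosure L) s))⁻¹
      (ok_any F he (hc_inv e he hℓ hs hdd)) (mapJ ℓ _ (cF e g).toAlgHom P) =
    aN ℓ (C dd * F) g (pm (e : SeparableClosure L →+* SeparableClosure K)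
      (e (algebraMap L (SeparableClosure L) s))⁻¹ (ok_any F he (hc_inv e he hℓ hs hdd)) P) := by
  change _ = mapJ ℓ (C dd * F) g.toAlgHom _
  rw [mapJ_eq, mapJ_eq, pm_pm, pm_pm]
  refine pm_congr _ _ (fun x => ?_) ?_ P
  · exact e_cF e h x
  · rw [map_one, one_mul, mul_one]
    change _ = g (_)⁻¹
    rw [map_inv₀, h s]

lemma tr_coc {f : Cochain ℓ (F.map (algebraMap K L))} (hf : IsCocycle ℓ _ f) {x y : Gal K}
    (hx : Fx e x) (hy : Fx e y) :
    tr e he ℓ F hℓ hs hdd f (x * y) = tr e he ℓ F hℓ hs hdd f x *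
      aN ℓ (C dd * F) x (tr e he ℓ F hℓ hs hdd f y) := by
  unfold tr
  rw [cF_mul e hx hy, hf.2, map_mul, tr_act e he hℓ hs hdd hx]

lemma tr_cob {f : Cochain ℓ (F.map (algebraMap K L))}
    {P : J ℓ (F.map (algebraMap K L)) (SeparableClosure L)}
    (hf : ∀ σ : Gal L, f σ = mapJ ℓ _ σ.toAlgHom P / P) {x : Gal K} (hx : Fx e x) :
    tr e he ℓ F hℓ hs hdd f x = aN ℓ (C dd * F) x (pm (e : SeparableClosure L →+* SeparableClosure K)
      (e (algebraMap L (SeparableClosure L) s))⁻¹ (ok_any F he (hc_inv e he hℓ hs hdd)) P) /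
      pm (e : SeparableClosure L →+* SeparableClosure K)
      (e (algebraMap L (SeparableClosure L) s))⁻¹ (ok_any F he (hc_inv e he hℓ hs hdd)) P := by
  unfold tr
  rw [hf, _root_.map_div, tr_act e he hℓ hs hdd hx]

lemma tr_pow (f : Cochain ℓ (F.map (algebraMap K L))) (n : ℕ) :
    tr e he ℓ F hℓ hs hdd (fun σ => f σ ^ n) = fun g => tr e he ℓ F hℓ hs hdd f g ^ n := by
  funext g
  exact map_pow _ _ _

end transfer

end Pool.Agent.D0H99.EA
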